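import Mathlib

set_option autoImplicit false

namespace Pool.Agent.NashW

open Finset

/-- Cyclic betweenness on natural numbers: going cyclically forward from `x` one meets `y`
before `e`. -/
def btw (x y e : ℕ) : Prop := (x < y ∧ y < e) ∨ (e < x ∧ (x < y ∨ y < e))

instance (x y e : ℕ) : Decidable (btw x y e) := by unfold btw; infer_instance

/-- number of elements of `P` in the cyclic interval from `x` (included) to `e` (excluded) -/
def st (P : Finset ℕ) (x e : ℕ) : ℕ :=
  if x < e then (P.filter (fun z => x ≤ z ∧ z < e)).card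
  else (P.filter (fun z => x ≤ z ∨ z < e)).card

/-- number of elements of `Y` cyclically between `x` and `e` -/
def wt (Y : Finset ℕ) (x e : ℕ) : ℕ := (Y.filter (fun y => btw x y e)).card

theorem card_below (P : Finset ℕ) (x e : ℕ) (h : x ≤ e) :
    (P.filter (fun z => x ≤ z ∧ z < e)).card + (P.filter (· < x)).card
      = (P.filter (· < e)).card := by
  rw [← Finset.card_union_of_disjoint]
  · congr 1
    ext z
    simp only [mem_union, mem_filter]
    constructor
    · rintro (⟨h1, h2, h3⟩ | ⟨h1, h2⟩)
      · exact ⟨h1, h3⟩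
      · exact ⟨h1, by omega⟩
    · rintro ⟨h1, h2⟩
      by_cases h3 : z < x
      · exact Or.inr ⟨h1, h3⟩
      · exact Or.inl ⟨h1, by omega, h2⟩
  · rw [Finset.disjoint_left]
    intro z hz hz'
    simp only [mem_filter] at hz hz'
    omega

theorem card_above (P : Finset ℕ) (x e : ℕ) (h : e ≤ x) :
    (P.filter (fun z => x ≤ z ∨ z < e)).card + (P.filter (· < x)).card
      = P.card + (P.filter (· < e)).card := by
  have h1 : (P.filter (fun z => x ≤ z ∨ z < e)).card
      = (P.filter (fun z => ¬ z < x)).card + (P.filter (· < e)).card := by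
    rw [← Finset.card_union_of_disjoint]
    · congr 1
      ext z
      simp only [mem_union, mem_filter]
      constructor
      · rintro ⟨h1, h2 | h2⟩
        · exact Or.inl ⟨h1, by omega⟩
        · exact Or.inr ⟨h1, h2⟩
      · rintro (⟨h1, h2⟩ | ⟨h1, h2⟩)
        · exact ⟨h1, Or.inl (by omega)⟩
        · exact ⟨h1, Or.inr h2⟩
    · rw [Finset.disjoint_left]
      intro z hz hz'
      simp only [mem_filter] at hz hz'
      omega
  have h2 := Finset.card_filter_add_card_filter_not (s := P) (fun z => z < x)
  omega

/-- the identity linking `st`, `wt` and the linear counting functions -/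
theorem potential (P Y : Finset ℕ) (hPY : Disjoint P Y) (x e : ℕ) (hx : x ∈ P) (hxe : x ≠ e) :
    (P.card : ℤ) * wt Y x e - (Y.card : ℤ) * st P x e
      = P.card * (((Y.filter (· < e)).card : ℤ) - (Y.filter (· < x)).card)
        - Y.card * (((P.filter (· < e)).card : ℤ) - (P.filter (· < x)).card) := by
  have hxY : x ∉ Y := Finset.disjoint_left.mp hPY hx
  rcases Nat.lt_or_ge x e with h | h
  · have h1 := card_below P x e h.le
    have h2 := card_below Y x e h.le
    have h3 : wt Y x e = (Y.filter (fun z => x ≤ z ∧ z < e)).card := by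
      unfold wt
      congr 1
      ext y
      rw [mem_filter, mem_filter]
      unfold btw
      constructor
      · rintro ⟨hy, h4⟩
        refine ⟨hy, by omega⟩
      · rintro ⟨hy, h4, h5⟩
        refine ⟨hy, Or.inl ⟨?_, h5⟩⟩
        rcases Nat.lt_or_ge x y with h6 | h6
        · exact h6
        · exact absurd (by have : x = y := by omega
                           rw [this]; exact hy) hxY
    have h4 : st P x e = (P.filter (fun z => x ≤ z ∧ z < e)).card := by
      unfold st; rw [if_pos h]
    rw [h3, h4]
    have h1' : ((P.filter (fun z => x ≤ z ∧ z < e)).card : ℤ)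
      = (P.filter (· < e)).card - (P.filter (· < x)).card := by
      have := congrArg (Nat.cast (R := ℤ)) h1
      push_cast at this
      linarith
    have h2' : ((Y.filter (fun z => x ≤ z ∧ z < e)).card : ℤ)
      = (Y.filter (· < e)).card - (Y.filter (· < x)).card := by
      have := congrArg (Nat.cast (R := ℤ)) h2
      push_cast at this
      linarith
    rw [h1', h2']
  · have h1 := card_above P x e h
    have h2 := card_above Y x e h
    have h3 : wt Y x e = (Y.filter (fun z => x ≤ z ∨ z < e)).card := by
      unfold wt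
      congr 1
      ext y
      rw [mem_filter, mem_filter]
      unfold btw
      constructor
      · rintro ⟨hy, h4⟩
        refine ⟨hy, by omega⟩
      · rintro ⟨hy, h4⟩
        refine ⟨hy, Or.inr ⟨by omega, ?_⟩⟩
        rcases h4 with h4 | h4
        · left
          rcases Nat.lt_or_ge x y with h6 | h6
          · exact h6
          · exact absurd (by have : x = y := by omega
                             rw [this]; exact hy) hxY
        · exact Or.inr h4
    have h4 : st P x e = (P.filter (fun z => x ≤ z ∨ z < e)).card := by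
      unfold st; rw [if_neg (by omega)]
    rw [h3, h4]
    have h1' : ((P.filter (fun z => x ≤ z ∨ z < e)).card : ℤ)
      = P.card + (P.filter (· < e)).card - (P.filter (· < x)).card := by
      have := congrArg (Nat.cast (R := ℤ)) h1
      push_cast at this
      linarith
    have h2' : ((Y.filter (fun z => x ≤ z ∨ z < e)).card : ℤ)
      = Y.card + (Y.filter (· < e)).card - (Y.filter (· < x)).card := by
      have := congrArg (Nat.cast (R := ℤ)) h2
      push_cast at this
      linarith
    rw [h1', h2']
    ring

theorem st_lt (P : Finset ℕ) (x e : ℕ) (he : e ∈ P) (hxe : x ≠ e) : st P x e < P.card := by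
  unfold st
  split_ifs with h
  · apply Finset.card_lt_card
    rw [Finset.ssubset_iff_of_subset (Finset.filter_subset _ _)]
    exact ⟨e, he, by simp⟩
  · apply Finset.card_lt_card
    rw [Finset.ssubset_iff_of_subset (Finset.filter_subset _ _)]
    exact ⟨e, he, by simp; omega⟩

/-- if `z` is not in the cyclic interval `[x, e)` then `st z e > st x e` -/
theorem st_mono (P : Finset ℕ) (x z e : ℕ) (hz : z ∈ P) (_hze : z ≠ e) (_hxe : x ≠ e)
    (hle : st P z e ≤ st P x e) :
    z ∈ (if x < e then P.filter (fun z => x ≤ z ∧ z < e) else P.filter (fun z => x ≤ z ∨ z < e)) := by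
  by_contra hcon
  have : st P x e < st P z e := by
    unfold st
    by_cases h : x < e
    · rw [if_pos h] at hcon ⊢
      simp only [mem_filter, not_and, not_lt] at hcon
      have h1 := hcon hz
      by_cases h2 : z < e
      · rw [if_pos h2]
        apply Finset.card_lt_card
        rw [Finset.ssubset_iff_of_subset]
        · exact ⟨z, by simp [hz, h2], by simp; intro _ h3; have := h1 h3; omega⟩
        · intro t ht
          simp only [mem_filter] at ht ⊢
          refine ⟨ht.1, ?_, ht.2.2⟩
          by_contra h4
          have := h1 (by omega)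
          omega
      · rw [if_neg h2]
        apply Finset.card_lt_card
        rw [Finset.ssubset_iff_of_subset]
        · exact ⟨z, by simp [hz], by simp; intro _ _; omega⟩
        · intro t ht
          simp only [mem_filter] at ht ⊢
          exact ⟨ht.1, Or.inr ht.2.2⟩
    · rw [if_neg h] at hcon ⊢
      simp only [mem_filter, not_and, not_or, not_lt, not_le] at hcon
      have h1 := hcon hz
      rw [if_neg (by omega)]
      apply Finset.card_lt_card
      rw [Finset.ssubset_iff_of_subset]
      · exact ⟨z, by simp [hz], by simp; intro _; omega⟩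
      · intro t ht
        simp only [mem_filter] at ht ⊢
        exact ⟨ht.1, by omega⟩
  omega

/-- The combinatorial core: a set `P` of positions on a cycle, a disjoint set `Y`, and for every
position `e` of `P` a set `M e` of at most `μ` excluded positions. -/
theorem abs_lemma (μ : ℕ) (P Y : Finset ℕ) (M : ℕ → Finset ℕ)
    (hPY : Disjoint P Y) (hM : ∀ e ∈ P, (M e).card ≤ μ) (hb : μ + 2 ≤ P.card)
    (hrule : ∀ e ∈ P, ∀ x ∈ P, x ≠ e → x ∉ M e → ∀ y ∈ Y, btw x y e → y ∈ M x) :
    Y.card ≤ μ := by
  classical
  by_contra hκ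
  push Not at hκ
  -- targets
  let T : ℕ → Finset ℕ := fun e => P.filter (fun x => x ≠ e ∧ x ∉ M e)
  have hTcard : ∀ e ∈ P, P.card ≤ (T e).card + 1 + (M e ∩ P).card := by
    intro e he
    have h1 : P ⊆ T e ∪ {e} ∪ (M e ∩ P) := by
      intro x hx
      simp only [mem_union, mem_singleton, mem_inter, T, mem_filter]
      by_cases h2 : x = e
      · exact Or.inl (Or.inr h2)
      · by_cases h3 : x ∈ M e
        · exact Or.inr ⟨h3, hx⟩
        · exact Or.inl (Or.inl ⟨hx, h2, h3⟩)
    calc P.card ≤ (T e ∪ {e} ∪ (M e ∩ P)).card := Finset.card_le_card h1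
      _ ≤ (T e ∪ {e}).card + (M e ∩ P).card := Finset.card_union_le _ _
      _ ≤ (T e).card + 1 + (M e ∩ P).card := by
        have := Finset.card_union_le (T e) {e}
        rw [Finset.card_singleton] at this
        omega
  have hTne : ∀ e ∈ P, (T e).Nonempty := by
    intro e he
    have h1 := hTcard e he
    have h2 : (M e ∩ P).card ≤ (M e).card := Finset.card_le_card Finset.inter_subset_left
    have h3 := hM e he
    rw [← Finset.card_pos]
    omega
  -- the furthest target
  have hφ : ∀ e ∈ P, ∃ x ∈ T e, ∀ z ∈ T e, st P z e ≤ st P x e := fun e he =>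
    Finset.exists_max_image (T e) (fun z => st P z e) (hTne e he)
  choose! φ hφT hφmax using hφ
  have hφP : ∀ e ∈ P, φ e ∈ P := fun e he => (Finset.mem_filter.mp (hφT e he)).1
  have hφne : ∀ e ∈ P, φ e ≠ e := fun e he => (Finset.mem_filter.mp (hφT e he)).2.1
  have hφM : ∀ e ∈ P, φ e ∉ M e := fun e he => (Finset.mem_filter.mp (hφT e he)).2.2
  -- number of steps at least number of targets
  have hs : ∀ e ∈ P, (T e).card ≤ st P (φ e) e := by
    intro e he
    have : T e ⊆ (if φ e < e then P.filter (fun z => φ e ≤ z ∧ z < e)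
        else P.filter (fun z => φ e ≤ z ∨ z < e)) := by
      intro z hz
      have hz1 := Finset.mem_filter.mp hz
      exact st_mono P (φ e) z e hz1.1 hz1.2.1 (hφne e he) (hφmax e he z hz)
    have h2 := Finset.card_le_card this
    unfold st
    split_ifs at h2 ⊢ with h
    · exact h2
    · exact h2
  -- weights
  have hw : ∀ e ∈ P, wt Y (φ e) e ≤ (M (φ e) ∩ Y).card := by
    intro e he
    apply Finset.card_le_card
    intro y hy
    have hy1 := Finset.mem_filter.mp hy
    exact Finset.mem_inter.mpr ⟨hrule e he (φ e) (hφP e he) (hφne e he) (hφM e he) y hy1.1 hy1.2, hy1.1⟩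
  have hsplit : ∀ x ∈ P, (M x ∩ P).card + (M x ∩ Y).card ≤ μ := by
    intro x hx
    have h1 : Disjoint (M x ∩ P) (M x ∩ Y) := by
      rw [Finset.disjoint_left]
      intro z h1 h2
      exact Finset.disjoint_left.mp hPY (Finset.mem_inter.mp h1).2 (Finset.mem_inter.mp h2).2
    rw [← Finset.card_union_of_disjoint h1]
    refine le_trans (Finset.card_le_card ?_) (hM x hx)
    intro z hz
    rcases Finset.mem_union.mp hz with h | h
    · exact (Finset.mem_inter.mp h).1
    · exact (Finset.mem_inter.mp h).1
  have key : ∀ e ∈ P, P.card + wt Y (φ e) e ≤ st P (φ (φ e)) (φ e) + 1 + μ := by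
    intro e he
    have h1 := hTcard (φ e) (hφP e he)
    have h2 := hs (φ e) (hφP e he)
    have h3 := hw e he
    have h4 := hsplit (φ e) (hφP e he)
    omega
  -- potential function
  have hPne : P.Nonempty := by rw [← Finset.card_pos]; omega
  obtain ⟨e, he, hmax⟩ := Finset.exists_max_image P
    (fun e => (P.card : ℤ) * st P (φ e) e + P.card * (Y.filter (· < e)).card
      - Y.card * (P.filter (· < e)).card) hPne
  have h1 := hmax (φ e) (hφP e he)
  beta_reduce at h1
  have h2 := potential P Y hPY (φ e) e (hφP e he) (hφne e he)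
  have h3 : (P.card : ℤ) + wt Y (φ e) e ≤ st P (φ (φ e)) (φ e) + 1 + μ := by
    exact_mod_cast key e he
  have h4 : (st P (φ e) e : ℤ) + 1 ≤ P.card := by
    exact_mod_cast st_lt P (φ e) e he (hφne e he)
  have h5 : (μ : ℤ) + 1 ≤ Y.card := by exact_mod_cast hκ
  have h6 : (μ : ℤ) + 2 ≤ P.card := by exact_mod_cast hb
  have h7 : (0 : ℤ) ≤ st P (φ e) e := by positivity
  set b : ℤ := (P.card : ℤ)
  set κ : ℤ := (Y.card : ℤ)
  set s : ℤ := (st P (φ e) e : ℤ)
  set s' : ℤ := (st P (φ (φ e)) (φ e) : ℤ)
  set w : ℤ := (wt Y (φ e) e : ℤ)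
  -- b * s' - b * s - (b * w - κ * s) ≤ 0
  have h8 : b * s' ≤ b * w + (b - κ) * s := by linarith
  have h9 : b * (b + w) ≤ b * (s' + 1 + μ) := by
    apply mul_le_mul_of_nonneg_left h3
    have : (0 : ℤ) ≤ μ := by positivity
    linarith
  have h10 : b * (b - 1 - μ) ≤ (b - κ) * s := by nlinarith
  have hμ : (0 : ℤ) ≤ μ := by positivity
  rcases le_or_gt b κ with hbk | hbk
  · have : (b - κ) * s ≤ 0 := mul_nonpos_of_nonpos_of_nonneg (by linarith) h7
    have : 0 < b * (b - 1 - μ) := by
      apply mul_pos <;> linarith
    linarith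
  · have h11 : (b - κ) * s ≤ (b - 1 - μ) * (b - 1) := by
      apply mul_le_mul
      · linarith
      · linarith
      · exact h7
      · linarith
    nlinarith

end Pool.Agent.NashW
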