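import Mathlib
import Pool.Agent.NashW.Abs

set_option autoImplicit false

namespace Pool.Agent.NashW

open Finset

section defs
variable {V : Type*} [Fintype V]

open Classical in
/-- outdegree -/
noncomputable def od (E : V → V → Prop) (v : V) : ℕ := (univ.filter (fun w => E v w)).card

open Classical in
/-- indegree -/
noncomputable def ideg (E : V → V → Prop) (v : V) : ℕ := (univ.filter (fun u => E u v)).card

end defs

/-- a Hamilton path, as a list -/
structure IsHP {V : Type*} (E : V → V → Prop) (l : List V) : Prop where
  nodup : l.Nodup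
  cover : ∀ v, v ∈ l
  chain : l.IsChain E

/-- Hamilton cycle, as a list whose last vertex sends an edge to its first vertex -/
def HC {V : Type*} (E : V → V → Prop) : Prop :=
  ∃ l : List V, IsHP E l ∧ ∀ a ∈ l.getLast?, ∀ b ∈ l.head?, E a b

/-! ### cyclic lists as periodic functions -/

section cyc
variable {V : Type*} (Z : List V) (hZ : 0 < Z.length)

/-- periodic extension of a list -/
def zf (i : ℕ) : V := Z[i % Z.length]'(Nat.mod_lt _ hZ)

theorem zf_mem (i : ℕ) : zf Z hZ i ∈ Z := List.getElem_mem _

theorem zf_add (i : ℕ) : zf Z hZ (i + Z.length) = zf Z hZ i := by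
  unfold zf
  congr 1
  exact Nat.add_mod_right _ _

theorem zf_congr {i j : ℕ} (h : i % Z.length = j % Z.length) : zf Z hZ i = zf Z hZ j := by
  unfold zf
  congr 1

theorem zf_inj (hnd : Z.Nodup) {i j : ℕ} (h : zf Z hZ i = zf Z hZ j) :
    i % Z.length = j % Z.length := by
  unfold zf at h
  exact (List.Nodup.getElem_inj_iff hnd).mp h

theorem zf_surj {v : V} (hv : v ∈ Z) : ∃ i < Z.length, zf Z hZ i = v := by
  obtain ⟨i, hi, h⟩ := List.getElem_of_mem hv
  refine ⟨i, hi, ?_⟩
  unfold zf
  rw [← h]
  congr 1
  exact Nat.mod_eq_of_lt hi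

variable {E : V → V → Prop}

theorem zf_edge (hch : Z.IsChain E) (hcl : ∀ a ∈ Z.getLast?, ∀ b ∈ Z.head?, E a b) (i : ℕ) :
    E (zf Z hZ i) (zf Z hZ (i + 1)) := by
  have hlt := Nat.mod_lt i hZ
  by_cases h : i % Z.length + 1 < Z.length
  · have h1 : (i + 1) % Z.length = i % Z.length + 1 := by
      rw [Nat.add_mod, Nat.mod_eq_of_lt (show 1 < Z.length by omega), Nat.mod_eq_of_lt h]
    have h2 := List.isChain_iff_getElem.mp hch (i % Z.length) h
    unfold zf
    simpa only [h1] using h2
  · have h0 : i % Z.length = Z.length - 1 := by omega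
    have h1 : (i + 1) % Z.length = 0 := by
      have h3 : i + 1 = (i % Z.length + 1) + Z.length * (i / Z.length) := by
        have := Nat.mod_add_div i Z.length
        omega
      rw [h3, Nat.add_mul_mod_self_left]
      have : i % Z.length + 1 = Z.length := by omega
      rw [this, Nat.mod_self]
    apply hcl
    · unfold zf
      rw [List.getLast?_eq_getElem?]
      simp only [h0, Option.mem_def]
      rw [List.getElem?_eq_getElem (by omega)]
    · unfold zf
      rw [List.head?_eq_getElem?]
      simp only [h1, Option.mem_def]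
      rw [List.getElem?_eq_getElem hZ]

theorem seg_chain (hE : ∀ i, E (zf Z hZ i) (zf Z hZ (i + 1))) (a len : ℕ) :
    ((List.range' a len).map (zf Z hZ)).IsChain E := by
  rw [List.isChain_map]
  induction len generalizing a with
  | zero => simp
  | succ k ih =>
    rw [List.range'_succ, List.isChain_cons]
    refine ⟨?_, ih (a + 1)⟩
    intro y hy
    cases k with
    | zero => simp at hy
    | succ k =>
      rw [List.range'_succ] at hy
      simp at hy
      rw [← hy]
      exact hE a

theorem seg_perm (hnd : Z.Nodup) (a : ℕ) :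
    ((List.range' a Z.length).map (zf Z hZ)).Perm Z := by
  rw [List.perm_ext_iff_of_nodup _ hnd]
  · intro v
    constructor
    · intro hv
      obtain ⟨i, _, rfl⟩ := List.mem_map.mp hv
      exact zf_mem Z hZ i
    · intro hv
      obtain ⟨i, hi, rfl⟩ := zf_surj Z hZ hv
      rw [List.mem_map]
      -- the representative of `i` in `[a, a + N)`
      refine ⟨a + (i + (Z.length - a % Z.length)) % Z.length, ?_, ?_⟩
      · rw [List.mem_range'_1]
        have := Nat.mod_lt (i + (Z.length - a % Z.length)) hZ
        omega
      · apply zf_congr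
        rw [Nat.add_mod_mod]
        have h1 := Nat.mod_lt a hZ
        have h2 := Nat.mod_add_div a Z.length
        have h3 : a + (i + (Z.length - a % Z.length)) = i + Z.length + Z.length * (a / Z.length) := by
          omega
        rw [h3, Nat.add_mul_mod_self_left, Nat.add_mod_right]
  · apply List.Nodup.map_on _ List.nodup_range'
    intro x hx y hy hxy
    have h1 := zf_inj Z hZ hnd hxy
    rw [List.mem_range'_1] at hx hy
    have h2 : x ≡ y [MOD Z.length] := h1
    rcases le_total x y with h | h
    · have h3 := (Nat.modEq_iff_dvd' h).mp h2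
      rcases Nat.eq_zero_or_pos (y - x) with h4 | h4
      · omega
      · have := Nat.le_of_dvd h4 h3
        omega
    · have h3 := (Nat.modEq_iff_dvd' h).mp h2.symm
      rcases Nat.eq_zero_or_pos (x - y) with h4 | h4
      · omega
      · have := Nat.le_of_dvd h4 h3
        omega

theorem seg_last (a len : ℕ) (h : 0 < len) :
    ((List.range' a len).map (zf Z hZ)).getLast? = some (zf Z hZ (a + len - 1)) := by
  obtain ⟨k, rfl⟩ : ∃ k, len = k + 1 := ⟨len - 1, by omega⟩
  rw [List.range'_concat]
  simp

theorem seg_head (a len : ℕ) (h : 0 < len) :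
    ((List.range' a len).map (zf Z hZ)).head? = some (zf Z hZ a) := by
  obtain ⟨k, rfl⟩ : ∃ k, len = k + 1 := ⟨len - 1, by omega⟩
  rw [List.range'_succ]
  simp

end cyc

end Pool.Agent.NashW
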