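import Mathlib
import Pool.Agent.NashW.Rot

set_option autoImplicit false

namespace Pool.Agent.NashW

open Finset

variable {V : Type*} {E : V → V → Prop}

/-- a lollipop of stem length `g`, starting at `s` -/
def Lol (E : V → V → Prop) (s : V) (g : ℕ) : Prop :=
  ∃ A Z : List V, A.length = g ∧ A.head? = some s ∧ Z ≠ [] ∧ IsHP E (A ++ Z) ∧
    ∀ a ∈ Z.getLast?, ∀ b ∈ Z.head?, E a b

theorem lol_of_path (hno : ¬ HC E) {s e : V} {L : List V} (hL : IsHP E L)
    (hs : L.head? = some s) (he : L.getLast? = some e) (i : ℕ) (hi : i < L.length)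
    (hE : E e (L[i])) : Lol E s i := by
  rcases Nat.eq_zero_or_pos i with h0 | h0
  · exfalso
    subst h0
    apply hno
    refine ⟨L, hL, ?_⟩
    intro a ha b hb
    rw [he] at ha
    rw [List.head?_eq_getElem?, List.getElem?_eq_getElem hi] at hb
    simp only [Option.mem_def, Option.some.injEq] at ha hb
    subst ha; subst hb
    exact hE
  · refine ⟨L.take i, L.drop i, ?_, ?_, ?_, ?_, ?_⟩
    · simp; omega
    · cases L with
      | nil => simp at hi
      | cons x xs =>
        obtain ⟨k, rfl⟩ : ∃ k, i = k + 1 := ⟨i - 1, by omega⟩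
        simpa using hs
    · intro h
      have := congrArg List.length h
      simp at this
      omega
    · rw [List.take_append_drop]; exact hL
    · intro a ha b hb
      have h1 : (L.drop i).getLast? = some e := by
        rw [List.getLast?_drop, if_neg (by omega)]
        exact he
      rw [h1] at ha
      rw [List.head?_drop, List.getElem?_eq_getElem hi] at hb
      simp only [Option.mem_def, Option.some.injEq] at ha hb
      subst ha; subst hb
      exact hE

/-- ends reachable with the stem `A` -/
def Endp (E : V → V → Prop) (A Z : List V) (v : V) : Prop :=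
  ∃ Z' : List V, Z'.Perm Z ∧ (A ++ Z').IsChain E ∧ Z'.getLast? = some v

theorem isHP_perm {A Z Z' : List V} (h : IsHP E (A ++ Z)) (hp : Z'.Perm Z)
    (hc : (A ++ Z').IsChain E) : IsHP E (A ++ Z') := by
  refine ⟨?_, ?_, hc⟩
  · exact (List.Perm.nodup_iff (hp.append_left A)).mpr h.nodup
  · intro v
    exact ((hp.append_left A).mem_iff).mpr (h.cover v)

theorem endp_out (hno : ¬ HC E) {s : V} {A Z : List V} (hAs : A.head? = some s)
    (hHP : IsHP E (A ++ Z)) (hmin : ∀ g < A.length, ¬ Lol E s g) {v w : V}
    (hv : Endp E A Z v) (hvw : E v w) : w ∈ Z := by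
  obtain ⟨Z', hp, hc, hl⟩ := hv
  have hHP' := isHP_perm hHP hp hc
  have hne : Z' ≠ [] := by rintro rfl; simp at hl
  rcases List.mem_append.mp (hHP'.cover w) with h | h
  · exfalso
    obtain ⟨i, hi, hw⟩ := List.getElem_of_mem h
    have hi' : i < (A ++ Z').length := by simp; omega
    have h1 : (A ++ Z')[i] = w := by
      rw [List.getElem_append_left hi]; exact hw
    refine hmin i hi (lol_of_path hno hHP' (s := s) (e := v) ?_ ?_ i hi' (by rw [h1]; exact hvw))
    · cases A with
      | nil => simp at hAs
      | cons x xs => simpa using hAs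
    · rw [List.getLast?_append_of_ne_nil _ hne]; exact hl
  · exact hp.mem_iff.mp h

theorem endp_start (hno : ¬ HC E) {s : V} {A Z : List V} (hAs : A.head? = some s)
    (hHP : IsHP E (A ++ Z)) (hmin : ∀ g < A.length, ¬ Lol E s g) {v : V}
    (hv : Endp E A Z v) : ¬ E v s := by
  intro hvs
  have h1 := endp_out hno hAs hHP hmin hv hvs
  have h2 : s ∈ A := by
    cases A with
    | nil => simp at hAs
    | cons x xs => simp at hAs; simp [hAs]
  exact (List.disjoint_of_nodup_append hHP.nodup) h2 h1

section rot
variable {A Z : List V} (hZ : 0 < Z.length) {a : V}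

theorem chain_A (hc : (A ++ Z).IsChain E) : A.IsChain E := hc.left_of_append

theorem endp_first (hnd : Z.Nodup) (hA : A.IsChain E) (hAl : A.getLast? = some a)
    (hE : ∀ i, E (zf Z hZ i) (zf Z hZ (i + 1))) {i : ℕ} (hai : E a (zf Z hZ (i + 1))) :
    Endp E A Z (zf Z hZ i) := by
  refine ⟨(List.range' (i + 1) Z.length).map (zf Z hZ), seg_perm Z hZ hnd _, ?_, ?_⟩
  · rw [List.isChain_append]
    refine ⟨hA, seg_chain Z hZ hE _ _, ?_⟩
    intro x hx y hy
    rw [hAl] at hx
    rw [seg_head Z hZ _ _ hZ] at hy
    simp only [Option.mem_def, Option.some.injEq] at hx hy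
    subst hx; subst hy; exact hai
  · rw [seg_last Z hZ _ _ hZ]
    have : i + 1 + Z.length - 1 = i + Z.length := by omega
    rw [this, zf_add]

theorem endp_rot (hnd : Z.Nodup) (hA : A.IsChain E) (hAl : A.getLast? = some a)
    (hE : ∀ i, E (zf Z hZ i) (zf Z hZ (i + 1))) {i j k : ℕ} (hai : E a (zf Z hZ (i + 1)))
    (hij : i < j) (hjk : j < k) (hk : k < i + Z.length)
    (h1 : E (zf Z hZ i) (zf Z hZ (j + 1))) (h2 : E (zf Z hZ j) (zf Z hZ (k + 1))) :
    Endp E A Z (zf Z hZ k) := by
  refine ⟨(List.range' (i + 1) (j - i)).map (zf Z hZ) ++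
      ((List.range' (k + 1) (i + Z.length - k)).map (zf Z hZ) ++
      (List.range' (j + 1) (k - j)).map (zf Z hZ)), ?_, ?_, ?_⟩
  · have e1 : (List.range' (i + 1) Z.length) = List.range' (i + 1) (j - i) ++
        (List.range' (j + 1) (k - j) ++ List.range' (k + 1) (i + Z.length - k)) := by
      have e2 : List.range' (j + 1) (k - j) ++ List.range' (k + 1) (i + Z.length - k)
          = List.range' (j + 1) (i + Z.length - j) := by
        have := @List.range'_append_1 (j + 1) (k - j) (i + Z.length - k)
        rw [show j + 1 + (k - j) = k + 1 by omega,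
          show k - j + (i + Z.length - k) = i + Z.length - j by omega] at this
        exact this
      have e3 : List.range' (i + 1) (j - i) ++ List.range' (j + 1) (i + Z.length - j)
          = List.range' (i + 1) Z.length := by
        have := @List.range'_append_1 (i + 1) (j - i) (i + Z.length - j)
        rw [show i + 1 + (j - i) = j + 1 by omega,
          show j - i + (i + Z.length - j) = Z.length by omega] at this
        exact this
      rw [e2, e3]
    refine List.Perm.trans ?_ (seg_perm Z hZ hnd (i + 1))
    rw [e1, List.map_append, List.map_append]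
    exact (List.perm_append_comm).append_left _
  · rw [List.isChain_append]
    refine ⟨hA, ?_, ?_⟩
    · rw [List.isChain_append]
      refine ⟨seg_chain Z hZ hE _ _, ?_, ?_⟩
      · rw [List.isChain_append]
        refine ⟨seg_chain Z hZ hE _ _, seg_chain Z hZ hE _ _, ?_⟩
        intro x hx y hy
        rw [seg_last Z hZ _ _ (by omega)] at hx
        rw [seg_head Z hZ _ _ (by omega)] at hy
        simp only [Option.mem_def, Option.some.injEq] at hx hy
        subst hx; subst hy
        rw [show k + 1 + (i + Z.length - k) - 1 = i + Z.length by omega, zf_add]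
        exact h1
      · intro x hx y hy
        rw [seg_last Z hZ _ _ (by omega)] at hx
        rw [List.head?_append, seg_head Z hZ _ _ (by omega)] at hy
        simp only [Option.mem_def, Option.some.injEq, Option.some_or] at hx hy
        subst hx; subst hy
        rw [show i + 1 + (j - i) - 1 = j by omega]
        exact h2
    · intro x hx y hy
      rw [hAl] at hx
      rw [List.head?_append, seg_head Z hZ _ _ (by omega)] at hy
      simp only [Option.mem_def, Option.some.injEq, Option.some_or] at hx hy
      subst hx; subst hy; exact hai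
  · rw [List.getLast?_append, List.getLast?_append, seg_last Z hZ (j + 1) _ (by omega)]
    simp only [Option.some_or]
    rw [show j + 1 + (k - j) - 1 = k by omega]

end rot

end Pool.Agent.NashW
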