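import Mathlib
import Pool.Agent.NashW.Main1

set_option autoImplicit false

namespace Pool.Agent.NashW

open Finset

universe w

variable {V : Type w} {E : V → V → Prop}

/-- contraction of the edge `u → y`: the vertex `y` is removed, `u` keeps its in-neighbours and
receives the out-neighbours of `y` -/
def Ctr (E : V → V → Prop) (u y : V) (a b : {v : V // v ≠ y}) : Prop :=
  a ≠ b ∧ ((a.1 = u ∧ E y b.1) ∨ (a.1 ≠ u ∧ E a.1 b.1))

theorem ctr_loop (u y : V) : ∀ v, ¬ Ctr E u y v v := fun _ h => h.1 rfl

/-- a Hamilton cycle can be written with a prescribed last vertex -/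
theorem hc_last (h : HC E) (u : V) : ∃ l : List V, IsHP E (l ++ [u]) ∧
    ∀ b ∈ (l ++ [u]).head?, E u b := by
  obtain ⟨l, hl, hcl⟩ := h
  obtain ⟨A, B, hAB⟩ := List.append_of_mem (hl.cover u)
  subst hAB
  rcases B.eq_nil_or_concat with hB | ⟨B', z, hB⟩
  · subst hB
    refine ⟨A, hl, ?_⟩
    intro b hb
    apply hcl u _ b hb
    simp
  · have hz : (A ++ u :: B).getLast? = some z := by
      rw [hB]
      have : A ++ u :: (B' ++ [z]) = (A ++ u :: B') ++ [z] := by simp
      rw [List.concat_eq_append, this, List.getLast?_concat]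
    have hperm : (B ++ A ++ [u]).Perm (A ++ u :: B) := by
      have h1 : (B ++ A ++ [u]).Perm (A ++ [u] ++ B) := by
        rw [List.append_assoc]; exact List.perm_append_comm
      simpa using h1
    have hch := hl.chain
    rw [List.isChain_append] at hch
    obtain ⟨c1, c2, c3⟩ := hch
    rw [List.isChain_cons] at c2
    refine ⟨B ++ A, ⟨(hperm.nodup_iff).mpr hl.nodup, fun v => hperm.mem_iff.mpr (hl.cover v), ?_⟩, ?_⟩
    · rw [List.append_assoc, List.isChain_append]
      refine ⟨c2.2, ?_, ?_⟩
      · rw [List.isChain_append]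
        refine ⟨c1, by simp, ?_⟩
        intro x hx y hy
        apply c3 x hx y
        simpa using hy
      · intro x hx y hy
        have hx' : x = z := by
          rw [hB, List.concat_eq_append, List.getLast?_concat] at hx
          simpa using hx.symm
        subst hx'
        apply hcl x hz y
        cases A with
        | nil => simpa using hy
        | cons p ps => simpa using hy
    · intro b hb
      apply c2.1 b
      rw [hB] at hb ⊢
      cases B' with
      | nil => simpa using hb
      | cons p ps => simpa using hb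

theorem hc_of_ctr {u y : V} (huy : u ≠ y) (hE : E u y) (h : HC (Ctr E u y)) : HC E := by
  obtain ⟨l, hl, hcl⟩ := hc_last h ⟨u, huy⟩
  have hlne : l ≠ [] := by
    rintro rfl
    have := hcl ⟨u, huy⟩ (by simp)
    exact this.1 rfl
  have hnd := hl.nodup
  have hnotu : ∀ a ∈ l, a.1 ≠ u := by
    intro a ha h1
    have h2 : a = ⟨u, huy⟩ := Subtype.ext h1
    rw [h2] at ha
    exact (List.disjoint_of_nodup_append hnd) ha (by simp)
  refine ⟨l.map Subtype.val ++ [u, y], ⟨?_, ?_, ?_⟩, ?_⟩
  · have h1 : ((l ++ [(⟨u, huy⟩ : {v : V // v ≠ y})]).map Subtype.val).Nodup :=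
      hnd.map Subtype.val_injective
    rw [List.map_append] at h1
    have h2 : l.map Subtype.val ++ [u, y] = (l.map Subtype.val ++ [u]) ++ [y] := by simp
    rw [h2, List.nodup_append]
    refine ⟨by simpa using h1, by simp, ?_⟩
    intro a ha b hb
    simp only [List.mem_singleton] at hb
    rw [hb]
    rcases List.mem_append.mp ha with h3 | h3
    · obtain ⟨c, _, rfl⟩ := List.mem_map.mp h3
      exact c.2
    · simp only [List.mem_singleton] at h3
      rw [h3]; exact huy
  · intro v
    by_cases hv : v = y
    · rw [hv]; simp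
    · have := hl.cover ⟨v, hv⟩
      rcases List.mem_append.mp this with h3 | h3
      · exact List.mem_append.mpr (Or.inl (List.mem_map.mpr ⟨_, h3, rfl⟩))
      · simp only [List.mem_singleton] at h3
        have : v = u := congrArg Subtype.val h3
        rw [this]; simp
  · have hch := hl.chain
    rw [List.isChain_append] at hch
    obtain ⟨c1, _, c3⟩ := hch
    rw [List.isChain_append]
    refine ⟨?_, by simpa using hE, ?_⟩
    · rw [List.isChain_map]
      apply List.IsChain.imp_of_mem_imp _ c1
      intro a b ha hb hab
      rcases hab.2 with h1 | h1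
      · exact absurd h1.1 (hnotu a ha)
      · exact h1.2
    · intro x hx b hb
      rw [List.getLast?_map] at hx
      simp only [Option.mem_def, Option.map_eq_some_iff] at hx
      obtain ⟨c, hc, rfl⟩ := hx
      simp at hb
      subst hb
      have := c3 c hc ⟨u, huy⟩ (by simp)
      rcases this.2 with h1 | h1
      · exact absurd h1.1 (hnotu c (List.mem_of_getLast? hc))
      · exact h1.2
  · intro a ha b hb
    have ha' : a = y := by
      rw [List.getLast?_append] at ha
      simpa using ha.symm
    subst ha'
    obtain ⟨c, cs, hc⟩ : ∃ c cs, l = c :: cs := by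
      cases l with
      | nil => exact absurd rfl hlne
      | cons c cs => exact ⟨c, cs, rfl⟩
    rw [hc] at hb hcl
    simp at hb
    subst hb
    have := hcl c (by simp)
    rcases this.2 with h1 | h1
    · exact h1.2
    · exact absurd rfl h1.1

variable [Fintype V]

theorem card_ctr (y : V) [Fintype {v : V // v ≠ y}] :
    Fintype.card {v : V // v ≠ y} + 1 = Fintype.card V := by
  classical
  have h := Fintype.card_subtype_compl (fun v : V => v = y)
  have h2 : Fintype.card {v : V // v = y} = 1 := by
    rw [Fintype.card_subtype_eq]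
  have h3 : 1 ≤ Fintype.card V := Fintype.card_pos_iff.mpr ⟨y⟩
  have h4 : Fintype.card {v : V // v ≠ y} = Fintype.card {v : V // ¬ v = y} := by
    apply Fintype.card_congr
    exact Equiv.refl _
  omega

open Classical in
theorem ctr_od_other (hloop : ∀ v, ¬ E v v) (u y : V) [Fintype {v : V // v ≠ y}]
    (a : {v : V // v ≠ y}) (ha : a.1 ≠ u) :
    od E a.1 ≤ od (Ctr E u y) a + (if E a.1 y then 1 else 0) := by
  unfold od
  have h1 : (univ.filter (fun b => E a.1 b)) ⊆
      ((univ.filter (fun b => Ctr E u y a b)).image Subtype.val) ∪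
        (if E a.1 y then {y} else ∅) := by
    intro b hb
    simp only [mem_filter, mem_univ, true_and] at hb
    rw [Finset.mem_union]
    by_cases hby : b = y
    · right; rw [hby] at hb; rw [if_pos hb, hby]; simp
    · left
      rw [Finset.mem_image]
      refine ⟨⟨b, hby⟩, ?_, rfl⟩
      simp only [mem_filter, mem_univ, true_and]
      refine ⟨?_, Or.inr ⟨ha, hb⟩⟩
      intro h
      rw [h] at hb
      exact hloop _ hb
  refine le_trans (Finset.card_le_card h1) (le_trans (Finset.card_union_le _ _) ?_)
  apply Nat.add_le_add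
  · exact Finset.card_image_le
  · split_ifs <;> simp

theorem ctr_od_self (hloop : ∀ v, ¬ E v v) (u y : V) [Fintype {v : V // v ≠ y}] (huy : u ≠ y) :
    od E y ≤ od (Ctr E u y) ⟨u, huy⟩ + 1 := by
  classical
  unfold od
  have h1 : (univ.filter (fun b => E y b)) ⊆
      ((univ.filter (fun b => Ctr E u y ⟨u, huy⟩ b)).image Subtype.val) ∪ {u} := by
    intro b hb
    simp only [mem_filter, mem_univ, true_and] at hb
    rw [Finset.mem_union]
    by_cases hbu : b = u
    · right; simp [hbu]
    · left
      have hby : b ≠ y := by rintro rfl; exact hloop _ hb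
      rw [Finset.mem_image]
      refine ⟨⟨b, hby⟩, ?_, rfl⟩
      simp only [mem_filter, mem_univ, true_and]
      refine ⟨?_, Or.inl ⟨rfl, hb⟩⟩
      intro h
      exact hbu (congrArg Subtype.val h).symm
  refine le_trans (Finset.card_le_card h1) (le_trans (Finset.card_union_le _ _) ?_)
  apply Nat.add_le_add
  · exact Finset.card_image_le
  · simp

open Classical in
theorem ctr_ideg (hloop : ∀ v, ¬ E v v) (u y : V) [Fintype {v : V // v ≠ y}]
    (v : {v : V // v ≠ y}) (hvu : v.1 ≠ u) :
    ideg E v.1 ≤ ideg (Ctr E u y) v + (if E u v.1 then 1 else 0) := by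
  by_cases huy : u = y
  · -- degenerate: `u = y`
    subst huy
    unfold ideg
    have h1 : (univ.filter (fun a => E a v.1)) ⊆
        ((univ.filter (fun a => Ctr E u u a v)).image Subtype.val) ∪
          (if E u v.1 then {u} else ∅) := by
      intro a ha
      simp only [mem_filter, mem_univ, true_and] at ha
      rw [Finset.mem_union]
      by_cases hau : a = u
      · right; rw [hau] at ha; rw [if_pos ha, hau]; simp
      · left
        rw [Finset.mem_image]
        refine ⟨⟨a, hau⟩, ?_, rfl⟩
        simp only [mem_filter, mem_univ, true_and]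
        refine ⟨?_, Or.inr ⟨hau, ha⟩⟩
        intro h
        rw [← h] at ha
        exact hloop _ ha
    refine le_trans (Finset.card_le_card h1) (le_trans (Finset.card_union_le _ _) ?_)
    apply Nat.add_le_add
    · exact Finset.card_image_le
    · split_ifs <;> simp
  unfold ideg
  have h1 : (univ.filter (fun a => E a v.1)) ⊆
      ((univ.filter (fun a => Ctr E u y a v)).image
        (fun a => if a.1 = u then y else a.1)) ∪ (if E u v.1 then {u} else ∅) := by
    intro a ha
    simp only [mem_filter, mem_univ, true_and] at ha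
    rw [Finset.mem_union]
    by_cases hau : a = u
    · right; rw [hau] at ha; rw [if_pos ha, hau]; simp
    · left
      rw [Finset.mem_image]
      by_cases hay : a = y
      · refine ⟨⟨u, huy⟩, ?_, by simp [hay]⟩
        simp only [mem_filter, mem_univ, true_and]
        refine ⟨?_, Or.inl ⟨rfl, hay ▸ ha⟩⟩
        intro h
        exact hvu (congrArg Subtype.val h).symm
      · refine ⟨⟨a, hay⟩, ?_, by simp [hau]⟩
        simp only [mem_filter, mem_univ, true_and]
        refine ⟨?_, Or.inr ⟨hau, ha⟩⟩
        intro h
        rw [← h] at ha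
        exact hloop _ ha
  refine le_trans (Finset.card_le_card h1) (le_trans (Finset.card_union_le _ _) ?_)
  apply Nat.add_le_add
  · exact Finset.card_image_le
  · split_ifs <;> simp

open Classical in
theorem ctr_ideg_self (hloop : ∀ v, ¬ E v v) (u y : V) [Fintype {v : V // v ≠ y}]
    (huy : u ≠ y) :
    ideg E u ≤ ideg (Ctr E u y) ⟨u, huy⟩ + (if E y u then 1 else 0) := by
  unfold ideg
  have h1 : (univ.filter (fun a => E a u)) ⊆
      ((univ.filter (fun a => Ctr E u y a ⟨u, huy⟩)).image Subtype.val) ∪
        (if E y u then {y} else ∅) := by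
    intro a ha
    simp only [mem_filter, mem_univ, true_and] at ha
    rw [Finset.mem_union]
    by_cases hay : a = y
    · right; rw [hay] at ha; rw [if_pos ha, hay]; simp
    · left
      rw [Finset.mem_image]
      have hau : a ≠ u := by rintro rfl; exact hloop _ ha
      refine ⟨⟨a, hay⟩, ?_, rfl⟩
      simp only [mem_filter, mem_univ, true_and]
      refine ⟨?_, Or.inr ⟨hau, ha⟩⟩
      intro h
      exact hau (congrArg Subtype.val h)
  refine le_trans (Finset.card_le_card h1) (le_trans (Finset.card_union_le _ _) ?_)
  apply Nat.add_le_add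
  · exact Finset.card_image_le
  · split_ifs <;> simp

/-- every indegree drops by at most one -/
theorem ctr_ideg_le (hloop : ∀ v, ¬ E v v) (u y : V) [Fintype {v : V // v ≠ y}]
    (v : {v : V // v ≠ y}) :
    ideg E v.1 ≤ ideg (Ctr E u y) v + 1 := by
  classical
  by_cases hvu : v.1 = u
  · have huy : u ≠ y := hvu ▸ v.2
    have h1 := ctr_ideg_self hloop u y huy
    have h2 : v = ⟨u, huy⟩ := Subtype.ext hvu
    rw [h2]
    refine le_trans h1 ?_
    split_ifs <;> omega
  · refine le_trans (ctr_ideg hloop u y v hvu) ?_
    split_ifs <;> omega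

end Pool.Agent.NashW
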