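import Mathlib
import Pool.Agent.NashW.Contr

set_option autoImplicit false

namespace Pool.Agent.NashW

open Finset

universe w

theorem hc_complete {V : Type w} [Fintype V] {E : V → V → Prop}
    (hn : 2 ≤ Fintype.card V) (h : ∀ u v, u ≠ v → E u v) : HC E := by
  classical
  refine ⟨(univ : Finset V).toList, ⟨Finset.nodup_toList _, by simp, ?_⟩, ?_⟩
  · have h1 : (univ : Finset V).toList.Pairwise (· ≠ ·) := Finset.nodup_toList _
    exact (h1.imp (fun {a b} hab => h a b hab)).isChain
  · intro a ha b hb
    apply h
    rintro rfl
    have hlen : (univ : Finset V).toList.length = Fintype.card V := by simp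
    have hnd : (univ : Finset V).toList.Nodup := Finset.nodup_toList _
    set l := (univ : Finset V).toList
    rw [List.getLast?_eq_getElem?, List.getElem?_eq_getElem (by omega)] at ha
    rw [List.head?_eq_getElem?, List.getElem?_eq_getElem (by omega)] at hb
    simp only [Option.mem_def, Option.some.injEq] at ha hb
    have := (List.Nodup.getElem_inj_iff hnd).mp (ha.trans hb.symm)
    omega

open Classical in
/-- A digraph in which every vertex outside `K` receives all possible edges and the indegrees
of the vertices in `K` satisfy `d_i ≥ i` has a Hamilton cycle. -/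
theorem closed_ham : ∀ (n : ℕ) (V : Type w) [Fintype V] (E : V → V → Prop) (K : Finset V),
    Fintype.card V = n → 2 ≤ n → (∀ v, ¬ E v v) → (∀ v, v ∉ K → ∀ u, u ≠ v → E u v) →
    (∀ i, (K.filter (fun v => ideg E v ≤ i)).card ≤ i) → HC E := by
  intro n
  induction n with
  | zero => intro V _ E K _ h; omega
  | succ n ih =>
    intro V _ E K hcard hn hloop hfull hK
    by_cases hKe : K = ∅
    · apply hc_complete (by omega)
      intro u v huv
      exact hfull v (by simp [hKe]) u huv
    -- the vertex of `K` of smallest indegree
    obtain ⟨y, hyK, hymin⟩ := Finset.exists_min_image K (ideg E)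
      (Finset.nonempty_iff_ne_empty.mpr hKe)
    have hpos : ∀ v ∈ K, 1 ≤ ideg E v := by
      intro v hv
      have h0 := hK 0
      by_contra hcon
      have : v ∈ K.filter (fun v => ideg E v ≤ 0) := by
        rw [Finset.mem_filter]; exact ⟨hv, by omega⟩
      have := Finset.card_pos.mpr ⟨v, this⟩
      omega
    have hexin : ∀ v ∈ K, ∃ u, E u v := by
      intro v hv
      have := hpos v hv
      unfold ideg at this
      obtain ⟨u, hu⟩ := Finset.card_pos.mp (lt_of_lt_of_le Nat.zero_lt_one this)
      exact ⟨u, (Finset.mem_filter.mp hu).2⟩
    by_cases hn2 : n + 1 = 2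
    · -- two vertices: the digraph is complete
      apply hc_complete (by omega)
      intro u v huv
      by_cases hv : v ∈ K
      · obtain ⟨u', hu'⟩ := hexin v hv
        have hu'v : u' ≠ v := by rintro rfl; exact hloop _ hu'
        have : u' = u := by
          by_contra hne
          have h3 : ({u', u, v} : Finset V).card ≤ Fintype.card V := Finset.card_le_univ _
          rw [Finset.card_insert_of_notMem (by simp [hne, hu'v]),
            Finset.card_insert_of_notMem (by simp [huv]), Finset.card_singleton] at h3
          omega
        rw [← this]; exact hu'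
      · exact hfull v hv u huv
    · obtain ⟨u, hu⟩ := hexin y hyK
      have huy : u ≠ y := by rintro rfl; exact hloop _ hu
      apply hc_of_ctr huy hu
      have hc' := card_ctr (V := V) y
      have hKsub : ∀ v : {v : V // v ≠ y}, v ∈ K.subtype (fun v => v ≠ y) ↔ v.1 ∈ K := by
        intro v; simp
      apply ih {v : V // v ≠ y} (Ctr E u y) (K.subtype (fun v => v ≠ y)) (by omega) (by omega)
        (ctr_loop u y)
      · intro v hv a hav
        have hvK : v.1 ∉ K := fun h => hv ((hKsub v).mpr h)
        refine ⟨hav, ?_⟩
        by_cases hau : a.1 = u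
        · exact Or.inl ⟨hau, hfull v.1 hvK y (fun h => v.2 h.symm)⟩
        · exact Or.inr ⟨hau, hfull v.1 hvK a.1 (fun h => hav (Subtype.ext h))⟩
      · intro i
        have h1 : (((K.subtype (fun v => v ≠ y)).filter
            (fun v => ideg (Ctr E u y) v ≤ i)).image Subtype.val) ⊆
            (K.filter (fun v => ideg E v ≤ i + 1)).erase y := by
          intro v hv
          rw [Finset.mem_image] at hv
          obtain ⟨a, ha, rfl⟩ := hv
          rw [Finset.mem_filter] at ha
          rw [Finset.mem_erase, Finset.mem_filter]
          refine ⟨a.2, (hKsub a).mp ha.1, ?_⟩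
          have := ctr_ideg_le hloop u y a
          omega
        have h2 := Finset.card_le_card h1
        rw [Finset.card_image_of_injective _ Subtype.val_injective] at h2
        by_cases h3 : y ∈ K.filter (fun v => ideg E v ≤ i + 1)
        · rw [Finset.card_erase_of_mem h3] at h2
          have := hK (i + 1)
          omega
        · have h4 : K.filter (fun v => ideg E v ≤ i + 1) = ∅ := by
            rw [Finset.eq_empty_iff_forall_notMem]
            intro v hv
            rw [Finset.mem_filter] at hv
            apply h3
            rw [Finset.mem_filter]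
            exact ⟨hyK, le_trans (hymin v hv.1) hv.2⟩
          rw [h4, Finset.erase_empty, Finset.card_empty] at h2
          omega

open Classical in
/-- **One-sided theorem.** All outdegrees at least `δ ≥ n/2`, and indegrees `d_i ≥ i` for
`i ≤ n - 1 - δ`. -/
theorem one_sided {V : Type w} [Fintype V] (δ : ℕ) : ∀ (E : V → V → Prop), (∀ v, ¬ E v v) →
    (∀ v, δ ≤ od E v) → Fintype.card V ≤ 2 * δ → 2 ≤ Fintype.card V →
    (∀ i, 1 ≤ i → i + δ < Fintype.card V → (univ.filter (fun v => ideg E v < i)).card < i) →
    HC E := by
  intro E
  induction hm : (univ.filter (fun p : V × V => ¬ E p.1 p.2)).card using Nat.strong_induction_on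
    generalizing E with
  | _ m ih =>
  intro hloop hδ h2 hn hin
  by_cases hex : ∃ e s, e ≠ s ∧ ¬ E e s ∧ Fintype.card V ≤ ideg E s + δ + 1
  · obtain ⟨e, s, hes, hnE, hsdeg⟩ := hex
    obtain ⟨E', hE'⟩ : ∃ E' : V → V → Prop, ∀ a b, E' a b ↔ (E a b ∨ (a = e ∧ b = s)) :=
      ⟨_, fun _ _ => Iff.rfl⟩
    have hle : ∀ a b, E a b → E' a b := fun a b h => (hE' a b).mpr (Or.inl h)
    have hHC' : HC E' := by
      refine ih _ ?_ E' rfl ?_ ?_ ?_ ?_ ?_
      rotate_left
      · intro v hv
        rcases (hE' v v).mp hv with h | ⟨h1, h3⟩
        · exact hloop v h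
        · exact hes (h1.symm.trans h3)
      · intro v
        refine le_trans (hδ v) ?_
        unfold od
        apply Finset.card_le_card
        intro w hw
        rw [Finset.mem_filter] at hw ⊢
        exact ⟨hw.1, hle _ _ hw.2⟩
      · exact h2
      · exact hn
      · intro i hi hi'
        refine lt_of_le_of_lt (Finset.card_le_card ?_) (hin i hi hi')
        intro v hv
        rw [Finset.mem_filter] at hv ⊢
        refine ⟨hv.1, lt_of_le_of_lt ?_ hv.2⟩
        unfold ideg
        apply Finset.card_le_card
        intro w hw
        rw [Finset.mem_filter] at hw ⊢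
        exact ⟨hw.1, hle _ _ hw.2⟩
      · rw [← hm]
        apply Finset.card_lt_card
        rw [Finset.ssubset_iff_of_subset]
        · refine ⟨(e, s), ?_, ?_⟩
          · rw [Finset.mem_filter]; exact ⟨Finset.mem_univ _, hnE⟩
          · rw [Finset.mem_filter]; rintro ⟨_, h⟩; exact h ((hE' _ _).mpr (Or.inr ⟨rfl, rfl⟩))
        · intro p hp
          rw [Finset.mem_filter] at hp ⊢
          exact ⟨hp.1, fun h => hp.2 (hle _ _ h)⟩
    obtain ⟨l, hl, hcl⟩ := hc_last hHC' e
    have hnote : ∀ a ∈ l, a ≠ e := by
      rintro a ha rfl
      exact (List.disjoint_of_nodup_append hl.nodup) ha (by simp)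
    have hHP : IsHP E (l ++ [e]) := by
      refine ⟨hl.nodup, hl.cover, ?_⟩
      have hch := hl.chain
      rw [List.isChain_append] at hch ⊢
      obtain ⟨c1, _, c3⟩ := hch
      refine ⟨?_, by simp, ?_⟩
      · apply List.IsChain.imp_of_mem_imp _ c1
        intro a b ha _ hab
        rcases (hE' a b).mp hab with h | h
        · exact h
        · exact absurd h.1 (hnote a ha)
      · intro x hx y hy
        rcases (hE' x y).mp (c3 x hx y hy) with h | h
        · exact h
        · exact absurd h.1 (hnote x (List.mem_of_getLast? hx))
    obtain ⟨b, hb⟩ : ∃ b, (l ++ [e]).head? = some b := by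
      cases l with
      | nil => exact ⟨e, by simp⟩
      | cons c cs => exact ⟨c, by simp⟩
    rcases (hE' e b).mp (hcl b hb) with h | h
    · refine ⟨l ++ [e], hHP, ?_⟩
      intro a ha c hc
      rw [List.getLast?_append] at ha
      simp at ha
      rw [hb] at hc
      simp only [Option.mem_def, Option.some.injEq] at hc
      rw [← ha, ← hc]
      exact h
    · rw [h.2] at hb
      exact closure_thm hloop δ hδ h2 hn hHP hb hsdeg
  · push Not at hex
    apply closed_ham (Fintype.card V) V E
      (univ.filter (fun s => ideg E s + δ + 1 < Fintype.card V)) rfl hn hloop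
    · intro v hv u huv
      by_contra hcon
      apply hv
      rw [Finset.mem_filter]
      exact ⟨Finset.mem_univ _, hex u v huv hcon⟩
    · intro i
      rw [Finset.filter_filter]
      by_cases h1 : i + 1 + δ < Fintype.card V
      · have h3 := hin (i + 1) (by omega) h1
        have h4 : (univ.filter (fun v => ideg E v + δ + 1 < Fintype.card V ∧ ideg E v ≤ i)).card
            ≤ (univ.filter (fun v => ideg E v < i + 1)).card := by
          apply Finset.card_le_card
          intro v hv
          rw [Finset.mem_filter] at hv ⊢
          exact ⟨hv.1, by omega⟩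
        omega
      · by_cases h5 : Fintype.card V ≤ δ + 1
        · have h4 : (univ.filter (fun v => ideg E v + δ + 1 < Fintype.card V ∧ ideg E v ≤ i))
              = ∅ := by
            rw [Finset.eq_empty_iff_forall_notMem]
            intro v hv
            rw [Finset.mem_filter] at hv
            omega
          rw [h4]; simp
        · have h3 := hin (Fintype.card V - δ - 1) (by omega) (by omega)
          have h4 : (univ.filter (fun v => ideg E v + δ + 1 < Fintype.card V ∧ ideg E v ≤ i)).card
              ≤ (univ.filter (fun v => ideg E v < Fintype.card V - δ - 1)).card := by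
            apply Finset.card_le_card
            intro v hv
            rw [Finset.mem_filter] at hv ⊢
            exact ⟨hv.1, by omega⟩
          omega

end Pool.Agent.NashW
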