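import Mathlib
import Pool.Agent.NashW.Main2

set_option autoImplicit false

namespace Pool.Agent.NashW

open Finset

variable {V : Type*} {E : V → V → Prop}

/-- a lollipop of stem length `g`, starting at `s`, whose last vertex is outside `X` -/
def LolX (E : V → V → Prop) (X : Finset V) (s : V) (g : ℕ) : Prop :=
  ∃ A Z : List V, A.length = g ∧ A.head? = some s ∧ Z ≠ [] ∧ IsHP E (A ++ Z) ∧
    (∀ a ∈ Z.getLast?, ∀ b ∈ Z.head?, E a b) ∧ (∀ a ∈ Z.getLast?, a ∉ X)

theorem lolX_of_path (hno : ¬ HC E) {X : Finset V} {s e : V} {L : List V} (hL : IsHP E L)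
    (hs : L.head? = some s) (he : L.getLast? = some e) (heX : e ∉ X) (i : ℕ) (hi : i < L.length)
    (hE : E e (L[i])) : LolX E X s i := by
  rcases Nat.eq_zero_or_pos i with h0 | h0
  · exfalso
    subst h0
    apply hno
    refine ⟨L, hL, ?_⟩
    intro a ha b hb
    rw [he] at ha
    rw [List.head?_eq_getElem?, List.getElem?_eq_getElem hi] at hb
    simp only [Option.mem_def, Option.some.injEq] at ha hb
    subst ha; subst hb
    exact hE
  · have h1 : (L.drop i).getLast? = some e := by
      rw [List.getLast?_drop, if_neg (by omega)]
      exact he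
    refine ⟨L.take i, L.drop i, ?_, ?_, ?_, ?_, ?_, ?_⟩
    · simp; omega
    · cases L with
      | nil => simp at hi
      | cons x xs =>
        obtain ⟨k, rfl⟩ : ∃ k, i = k + 1 := ⟨i - 1, by omega⟩
        simpa using hs
    · intro h
      have := congrArg List.length h
      simp at this
      omega
    · rw [List.take_append_drop]; exact hL
    · intro a ha b hb
      rw [h1] at ha
      rw [List.head?_drop, List.getElem?_eq_getElem hi] at hb
      simp only [Option.mem_def, Option.some.injEq] at ha hb
      subst ha; subst hb
      exact hE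
    · intro a ha
      rw [h1] at ha
      simp only [Option.mem_def, Option.some.injEq] at ha
      subst ha
      exact heX

theorem endp_outX (hno : ¬ HC E) {X : Finset V} {s : V} {A Z : List V} (hAs : A.head? = some s)
    (hHP : IsHP E (A ++ Z)) (hmin : ∀ g < A.length, ¬ LolX E X s g) {v w : V}
    (hv : Endp E A Z v) (hvX : v ∉ X) (hvw : E v w) : w ∈ Z := by
  obtain ⟨Z', hp, hc, hl⟩ := hv
  have hHP' := isHP_perm hHP hp hc
  have hne : Z' ≠ [] := by rintro rfl; simp at hl
  rcases List.mem_append.mp (hHP'.cover w) with h | h
  · exfalso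
    obtain ⟨i, hi, hw⟩ := List.getElem_of_mem h
    have hi' : i < (A ++ Z').length := by simp; omega
    have h1 : (A ++ Z')[i] = w := by
      rw [List.getElem_append_left hi]; exact hw
    refine hmin i hi (lolX_of_path hno hHP' (s := s) (e := v) ?_ ?_ hvX i hi'
      (by rw [h1]; exact hvw))
    · cases A with
      | nil => simp at hAs
      | cons x xs => simpa using hAs
    · rw [List.getLast?_append_of_ne_nil _ hne]; exact hl
  · exact hp.mem_iff.mp h

/-- an end of a Hamilton path starting at `s` sends no edge to `s` -/
theorem endp_startX (hno : ¬ HC E) {s : V} {A Z : List V} (hAs : A.head? = some s)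
    (hHP : IsHP E (A ++ Z)) {v : V} (hv : Endp E A Z v) : ¬ E v s := by
  intro hvs
  obtain ⟨Z', hp, hc, hl⟩ := hv
  have hHP' := isHP_perm hHP hp hc
  have hne : Z' ≠ [] := by rintro rfl; simp at hl
  apply hno
  refine ⟨A ++ Z', hHP', ?_⟩
  intro a ha b hb
  rw [List.getLast?_append_of_ne_nil _ hne, hl] at ha
  have hb' : (A ++ Z').head? = some s := by
    cases A with
    | nil => simp at hAs
    | cons x xs => simpa using hAs
  rw [hb'] at hb
  simp only [Option.mem_def, Option.some.injEq] at ha hb
  rw [← ha, ← hb]; exact hvs

variable [Fintype V]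

/-- Step A: if all outdegrees are at least `k + |X|` and those outside `X` are at least `n - k`,
then some Hamilton path from `s` ends outside `X`. -/
theorem exists_big_end (hloop : ∀ v, ¬ E v v) (X : Finset V) (k : ℕ)
    (hbig : ∀ v, v ∉ X → Fintype.card V ≤ od E v + k) (hall : ∀ v, k + X.card ≤ od E v)
    (hk : 1 ≤ k) (hno : ¬ HC E) {s : V} {L : List V} (hL : IsHP E L) (hs : L.head? = some s) :
    ∃ L' e, IsHP E L' ∧ L'.head? = some s ∧ L'.getLast? = some e ∧ e ∉ X := by
  classical
  by_contra hcon
  push Not at hcon
  have hlen := isHP_length hL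
  have hnd := hL.nodup
  set n := Fintype.card V with hn
  obtain ⟨e, he⟩ : ∃ e, L.getLast? = some e := by
    rw [← Option.isSome_iff_exists, List.getLast?_isSome]
    rintro rfl; simp at hs
  have heX : e ∈ X := hcon L e hL hs he
  have hn1 : 1 ≤ n := by rw [hn]; exact Fintype.card_pos_iff.mpr ⟨e⟩
  have heL : L[n - 1]'(by omega) = e := by
    rw [List.getLast?_eq_getElem?, List.getElem?_eq_getElem (by omega)] at he
    simp only [Option.some.injEq] at he
    rw [← he]
    congr 1
    omega
  -- total function on indices
  let p : ℕ → V := fun i => if h : i < L.length then L[i] else s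
  have hp : ∀ i (h : i < L.length), p i = L[i] := fun i h => dif_pos h
  have hpinj : ∀ i j, i < n → j < n → p i = p j → i = j := by
    intro i j hi hj hij
    rw [hp i (by omega), hp j (by omega)] at hij
    exact (List.Nodup.getElem_inj_iff hnd).mp hij
  have hpsurj : ∀ v, ∃ i < n, p i = v := by
    intro v
    obtain ⟨i, hi, hv⟩ := List.getElem_of_mem (hL.cover v)
    exact ⟨i, by omega, by rw [hp i hi]; exact hv⟩
  -- the set `J` of positions of out-neighbours of `e` with predecessor outside `X`
  let J : Finset ℕ := (range n).filter (fun j => E e (p j))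
  have hJcard : J.card = od E e := by
    unfold od
    apply Finset.card_bij (fun j _ => p j)
    · intro j hj; simp only [J, mem_filter] at hj; simp [hj.2]
    · intro i hi j hj h
      simp only [J, mem_filter, mem_range] at hi hj
      exact hpinj i j hi.1 hj.1 h
    · intro v hv
      obtain ⟨i, hi, h⟩ := hpsurj v
      refine ⟨i, ?_, h⟩
      simp only [J, mem_filter, mem_range]
      rw [h]
      exact ⟨hi, (Finset.mem_filter.mp hv).2⟩
  have hJpos : ∀ j ∈ J, 1 ≤ j ∧ j + 1 < n := by
    intro j hj
    simp only [J, mem_filter, mem_range] at hj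
    constructor
    · by_contra h0
      have h0' : j = 0 := by omega
      subst h0'
      apply hno
      refine ⟨L, hL, ?_⟩
      intro a ha b hb
      rw [he] at ha
      rw [List.head?_eq_getElem?, List.getElem?_eq_getElem (by omega)] at hb
      simp only [Option.mem_def, Option.some.injEq] at ha hb
      subst ha; subst hb
      rw [← hp 0 (by omega)]
      exact hj.2
    · by_contra h1
      have h2 : j = n - 1 := by omega
      rw [h2, hp _ (by omega), heL] at hj
      exact hloop e hj.2
  let Jb : Finset ℕ := J.filter (fun j => p (j - 1) ∉ X)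
  have hJb : k + 1 ≤ Jb.card := by
    have h1 : (J.filter (fun j => ¬ p (j - 1) ∉ X)).card ≤ (X.erase e).card := by
      apply Finset.card_le_card_of_injOn (fun j => p (j - 1))
      · intro j hj
        have hj' := Finset.mem_filter.mp (Finset.mem_coe.mp hj)
        have hj2 := hJpos j hj'.1
        rw [Finset.mem_coe, Finset.mem_erase]
        refine ⟨?_, not_not.mp hj'.2⟩
        intro h
        rw [← heL, ← hp (n - 1) (by omega)] at h
        have := hpinj _ _ (by omega) (by omega) h
        omega
      · intro i hi j hj h
        have hi' := hJpos i (Finset.mem_filter.mp (Finset.mem_coe.mp hi)).1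
        have hj' := hJpos j (Finset.mem_filter.mp (Finset.mem_coe.mp hj)).1
        have := hpinj _ _ (by omega) (by omega) h
        omega
    rw [Finset.card_erase_of_mem heX] at h1
    have h2 := Finset.card_filter_add_card_filter_not (s := J) (fun j => p (j - 1) ∉ X)
    have h3 := hall e
    have h4 : 1 ≤ X.card := Finset.card_pos.mpr ⟨e, heX⟩
    have h5 : Jb.card = (J.filter (fun j => p (j - 1) ∉ X)).card := rfl
    omega
  have hJbne : Jb.Nonempty := by rw [← Finset.card_pos]; omega
  obtain ⟨j0, hj0, hj0min⟩ := Finset.exists_min_image Jb id hJbne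
  have hj0' := Finset.mem_filter.mp hj0
  have hj0pos := hJpos j0 hj0'.1
  have hj0E : E e (p j0) := (Finset.mem_filter.mp hj0'.1).2
  -- the lollipop
  set A := L.take j0 with hA
  set Z := L.drop j0 with hZdef
  have hAZ : A ++ Z = L := List.take_append_drop _ _
  have hHP : IsHP E (A ++ Z) := by rw [hAZ]; exact hL
  have hZlen : Z.length = n - j0 := by rw [hZdef, List.length_drop]; omega
  have hAlen : A.length = j0 := by rw [hA, List.length_take]; omega
  have hZ : 0 < Z.length := by omega
  have hZlast : Z.getLast? = some e := by
    rw [hZdef, List.getLast?_drop, if_neg (by omega)]; exact he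
  have hcl : ∀ a ∈ Z.getLast?, ∀ b ∈ Z.head?, E a b := by
    intro a ha b hb
    rw [hZlast] at ha
    rw [hZdef, List.head?_drop, List.getElem?_eq_getElem (by omega)] at hb
    simp only [Option.mem_def, Option.some.injEq] at ha hb
    subst ha; subst hb
    rw [← hp j0 (by omega)]; exact hj0E
  have hchA : A.IsChain E := hHP.chain.left_of_append
  have hchZ : Z.IsChain E := hHP.chain.right_of_append
  have hndZ : Z.Nodup := hHP.nodup.of_append_right
  have hndA : A.Nodup := hHP.nodup.of_append_left
  have hEz := zf_edge Z hZ hchZ hcl
  have hzf : ∀ i, i < Z.length → zf Z hZ i = p (j0 + i) := by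
    intro i hi
    have hmod : i % Z.length = i := Nat.mod_eq_of_lt hi
    have h1 : ∀ (t : ℕ) (ht : t < Z.length), Z[t] = L[j0 + t]'(by omega) := by
      intro t ht
      simp only [hZdef, List.getElem_drop]
    unfold zf
    rw [hp _ (by omega), h1 _ (Nat.mod_lt _ hZ)]
    simp only [hmod]
  have hAs : A.head? = some s := by
    rw [hA]
    cases L with
    | nil => simp at hs
    | cons x xs =>
      obtain ⟨k, hk'⟩ : ∃ k, j0 = k + 1 := ⟨j0 - 1, by omega⟩
      rw [hk']; simpa using hs
  set a := p (j0 - 1) with ha
  have hAl : A.getLast? = some a := by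
    rw [List.getLast?_eq_getElem?, List.getElem?_eq_getElem (by omega)]
    rw [ha, hp _ (by omega)]
    simp only [hA, List.getElem_take, Option.some.injEq]
    congr 1
    rw [List.length_take]; omega
  have haA : a ∈ A := List.mem_of_getLast? hAl
  have haX : a ∉ X := hj0'.2
  set N := Z.length with hN
  set P : Finset ℕ := (range N).filter (fun i => E a (zf Z hZ (i + 1))) with hPdef
  have hPend : ∀ i ∈ P, Endp E A Z (zf Z hZ i) := by
    intro i hi
    simp only [hPdef, mem_filter] at hi
    exact endp_first hZ hndZ hchA hAl hEz hi.2
  -- every end is in `X`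
  have hendX : ∀ v, Endp E A Z v → v ∈ X := by
    intro v hv
    obtain ⟨Z', hp', hc, hl⟩ := hv
    have hHP' := isHP_perm hHP hp' hc
    have hne : Z' ≠ [] := by rintro rfl; simp at hl
    apply hcon (A ++ Z') v hHP'
    · cases hAc : A with
      | nil => rw [hAc] at hAs; simp at hAs
      | cons x xs => rw [hAc] at hAs; simpa using hAs
    · rw [List.getLast?_append_of_ne_nil _ hne]; exact hl
  -- count `P`
  have hPcard : n ≤ P.card + k + (j0 - 1) := by
    have h1 : od E a ≤ (univ.filter (fun w => E a w ∧ w ∈ Z)).card
        + (A.toFinset.erase a).card := by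
      unfold od
      rw [← Finset.card_union_of_disjoint]
      · apply Finset.card_le_card
        intro w hw
        simp only [mem_filter, mem_univ, true_and] at hw
        rw [Finset.mem_union]
        rcases List.mem_append.mp (hHP.cover w) with h | h
        · right
          rw [Finset.mem_erase]
          refine ⟨?_, List.mem_toFinset.mpr h⟩
          rintro rfl
          exact hloop _ hw
        · left
          simp only [mem_filter, mem_univ, true_and]
          exact ⟨hw, h⟩
      · rw [Finset.disjoint_left]
        intro w h1 h2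
        simp only [mem_filter, mem_univ, true_and] at h1
        rw [Finset.mem_erase, List.mem_toFinset] at h2
        exact (List.disjoint_of_nodup_append hHP.nodup) h2.2 h1.2
    rw [Finset.card_erase_of_mem (List.mem_toFinset.mpr haA),
      List.toFinset_card_of_nodup hndA, ← cntZ1 hZ hndZ] at h1
    have h3 := hbig a haX
    have h4 : P.card = ((range Z.length).filter (fun i => E a (zf Z hZ (i + 1)))).card := rfl
    omega
  -- `P` minus its last element is contained in the positions of `X`
  have hPX : P.card ≤ 1 + ((Finset.Ico j0 (n - 1)).filter (fun t => p t ∈ X)).card := by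
    have h1 : (P.erase (N - 1)).card ≤
        ((Finset.Ico j0 (n - 1)).filter (fun t => p t ∈ X)).card := by
      apply Finset.card_le_card_of_injOn (fun i => j0 + i)
      · intro i hi
        have hi' := Finset.mem_erase.mp (Finset.mem_coe.mp hi)
        have hi2 : i < N := Finset.mem_range.mp (Finset.mem_filter.mp hi'.2).1
        rw [Finset.mem_coe, Finset.mem_filter, Finset.mem_Ico]
        dsimp only
        refine ⟨⟨by omega, by omega⟩, ?_⟩
        rw [← hzf i hi2]
        exact hendX _ (hPend i hi'.2)
      · intro i _ j _ h
        simp only at h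
        omega
    have h2 := Finset.pred_card_le_card_erase (s := P) (a := N - 1)
    omega
  -- count positions
  have hpos : Jb.card + ((Finset.Ico j0 (n - 1)).filter (fun t => p t ∈ X)).card ≤ n - j0 := by
    have h1 : Jb.card ≤ ((Finset.Ico (j0 - 1) (n - 1)).filter (fun t => p t ∉ X)).card := by
      apply Finset.card_le_card_of_injOn (fun j => j - 1)
      · intro j hj
        have hj' := Finset.mem_filter.mp (Finset.mem_coe.mp hj)
        have hj2 := hJpos j hj'.1
        have hj3 := hj0min j (Finset.mem_coe.mp hj)
        simp only [id] at hj3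
        rw [Finset.mem_coe, Finset.mem_filter, Finset.mem_Ico]
        dsimp only
        exact ⟨⟨by omega, by omega⟩, hj'.2⟩
      · intro i hi j hj h
        have hi' := hJpos i (Finset.mem_filter.mp (Finset.mem_coe.mp hi)).1
        have hj' := hJpos j (Finset.mem_filter.mp (Finset.mem_coe.mp hj)).1
        simp only at h
        omega
    have h2 : ((Finset.Ico j0 (n - 1)).filter (fun t => p t ∈ X)).card ≤
        ((Finset.Ico (j0 - 1) (n - 1)).filter (fun t => p t ∈ X)).card := by
      apply Finset.card_le_card
      intro t ht
      rw [Finset.mem_filter, Finset.mem_Ico] at ht ⊢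
      exact ⟨⟨by omega, ht.1.2⟩, ht.2⟩
    have h3 := Finset.card_filter_add_card_filter_not (s := Finset.Ico (j0 - 1) (n - 1))
      (fun t => p t ∈ X)
    rw [Nat.card_Ico] at h3
    omega
  omega

end Pool.Agent.NashW
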