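import Mathlib
import Pool.Agent.NashW.Gen1

set_option autoImplicit false

namespace Pool.Agent.NashW

open Finset

variable {V : Type*} {E : V → V → Prop} [Fintype V]

/-- **Closure theorem, general form.** Outdegrees are at least `n - k` outside `X` and at least
`k + |X|` everywhere; some Hamilton path starts at `s`, and the indegree of `s` is at least
`k - 1`. Then there is a Hamilton cycle. -/
theorem closure_gen (hloop : ∀ v, ¬ E v v) (X : Finset V) (k : ℕ) (hk : 1 ≤ k)
    (hbig : ∀ v, v ∉ X → Fintype.card V ≤ od E v + k) (hall : ∀ v, k + X.card ≤ od E v)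
    {s : V} {L : List V}
    (hL : IsHP E L) (hs : L.head? = some s) (hdeg : k ≤ ideg E s + 1) :
    HC E := by
  classical
  by_contra hno
  obtain ⟨L, e, hL, hs, he, heX⟩ := exists_big_end hloop X k hbig hall hk hno hL hs
  have hex : ∃ g, LolX E X s g := by
    have h2 : 0 < od E e := by have := hall e; omega
    unfold od at h2
    rw [Finset.card_pos] at h2
    obtain ⟨w, hw⟩ := h2
    simp only [mem_filter, mem_univ, true_and] at hw
    obtain ⟨i, hi, hiw⟩ := List.getElem_of_mem (hL.cover w)
    exact ⟨i, lolX_of_path hno hL hs he heX i hi (by rw [hiw]; exact hw)⟩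
  obtain ⟨A, Z, hAlen, hAs, hZne, hHP, hcl, hlastX⟩ := Nat.find_spec hex
  have hmin : ∀ g < A.length, ¬ LolX E X s g := by
    intro g hg
    rw [hAlen] at hg
    exact Nat.find_min hex hg
  have hZ : 0 < Z.length := List.length_pos_of_ne_nil hZne
  have hlen := isHP_length hHP
  rw [List.length_append] at hlen
  have hndZ : Z.Nodup := hHP.nodup.of_append_right
  have hndA : A.Nodup := hHP.nodup.of_append_left
  have hchA : A.IsChain E := hHP.chain.left_of_append
  have hchZ : Z.IsChain E := hHP.chain.right_of_append
  have hdis := List.disjoint_of_nodup_append hHP.nodup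
  have hA1 : 1 ≤ A.length := by
    cases A with
    | nil => simp at hAs
    | cons x xs => simp
  obtain ⟨a, hAl⟩ : ∃ a, A.getLast? = some a := by
    rw [← Option.isSome_iff_exists, List.getLast?_isSome]
    rintro rfl; simp at hAs
  have haA : a ∈ A := List.mem_of_getLast? hAl
  have hEz := zf_edge Z hZ hchZ hcl
  set N := Z.length with hN
  -- the two sets
  set P : Finset ℕ := (range N).filter
    (fun i => E a (zf Z hZ (i + 1)) ∧ zf Z hZ i ∉ X) with hPdef
  set Y : Finset ℕ := (range N).filter (fun k => ¬ Endp E A Z (zf Z hZ k)) with hYdef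
  let M : ℕ → Finset ℕ := fun i =>
    (range N).filter (fun j => ¬ E (zf Z hZ i) (zf Z hZ (j + 1)) ∧ (j + 1) % N ≠ i % N)
  have hPend : ∀ i ∈ P, Endp E A Z (zf Z hZ i) := by
    intro i hi
    simp only [hPdef, mem_filter] at hi
    exact endp_first hZ hndZ hchA hAl hEz hi.2.1
  have hPX : ∀ i ∈ P, zf Z hZ i ∉ X := by
    intro i hi
    simp only [hPdef, mem_filter] at hi
    exact hi.2.2
  have hPY : Disjoint P Y := by
    rw [Finset.disjoint_left]
    intro i hi hi'
    simp only [hYdef, mem_filter] at hi'
    exact hi'.2 (hPend i hi)
  -- out-neighbours of ends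
  have hodend : ∀ v, Endp E A Z v → v ∉ X →
      od E v = (univ.filter (fun w => E v w ∧ w ∈ Z)).card := by
    intro v hv hvX
    unfold od
    congr 1
    ext w
    simp only [mem_filter, mem_univ, true_and]
    exact ⟨fun h => ⟨h, endp_outX hno hAs hHP hmin hv hvX h⟩, fun h => h.1⟩
  have hMcard : ∀ i ∈ P, (M i).card + Fintype.card V + 1 ≤ N + k := by
    intro i hi
    have h1 := hodend _ (hPend i hi) (hPX i hi)
    rw [← cntZ1 hZ hndZ] at h1
    obtain ⟨j0, hj0, hj0'⟩ := pred_exists N i hZ
    have hj0S : j0 ∉ (range N).filter (fun j => E (zf Z hZ i) (zf Z hZ (j + 1))) := by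
      simp only [mem_filter, not_and]
      intro _ h
      rw [zf_congr Z hZ hj0'] at h
      exact hloop _ h
    have h3 : M i ∪ insert j0 ((range N).filter (fun j => E (zf Z hZ i) (zf Z hZ (j + 1))))
        ⊆ range N := by
      intro j hj
      rcases Finset.mem_union.mp hj with h | h
      · exact (Finset.mem_filter.mp h).1
      · rcases Finset.mem_insert.mp h with h | h
        · rw [h]; exact Finset.mem_range.mpr hj0
        · exact (Finset.mem_filter.mp h).1
    have h4 : Disjoint (M i) (insert j0 ((range N).filter
        (fun j => E (zf Z hZ i) (zf Z hZ (j + 1))))) := by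
      rw [Finset.disjoint_left]
      intro j hj hj'
      simp only [M, mem_filter] at hj
      rcases Finset.mem_insert.mp hj' with h | h
      · subst h; exact hj.2.2 hj0'
      · exact hj.2.1 (Finset.mem_filter.mp h).2
    have h5 := Finset.card_le_card h3
    rw [Finset.card_union_of_disjoint h4, Finset.card_insert_of_notMem hj0S, Finset.card_range,
      ← h1] at h5
    have := hbig (zf Z hZ i) (hPX i hi)
    omega
  -- size of `P`
  have hPcard : k + 1 ≤ P.card + A.length := by
    have h1 : od E a ≤ (univ.filter (fun w => E a w ∧ w ∈ Z)).card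
        + (A.toFinset.erase a).card := by
      unfold od
      rw [← Finset.card_union_of_disjoint]
      · apply Finset.card_le_card
        intro w hw
        simp only [mem_filter, mem_univ, true_and] at hw
        rw [Finset.mem_union]
        rcases List.mem_append.mp (hHP.cover w) with h | h
        · right
          rw [Finset.mem_erase]
          refine ⟨?_, List.mem_toFinset.mpr h⟩
          rintro rfl
          exact hloop _ hw
        · left
          simp only [mem_filter, mem_univ, true_and]
          exact ⟨hw, h⟩
      · rw [Finset.disjoint_left]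
        intro w h1 h2
        simp only [mem_filter, mem_univ, true_and] at h1
        rw [Finset.mem_erase, List.mem_toFinset] at h2
        exact hdis h2.2 h1.2
    rw [Finset.card_erase_of_mem (List.mem_toFinset.mpr haA),
      List.toFinset_card_of_nodup hndA, ← cntZ1 hZ hndZ] at h1
    have h3 := hall a
    have h4 : ((range N).filter (fun i => E a (zf Z hZ (i + 1)))).card ≤ P.card + X.card := by
      have h5 : ((range N).filter (fun i => E a (zf Z hZ (i + 1)))) ⊆
          P ∪ (range N).filter (fun i => zf Z hZ i ∈ X) := by
        intro i hi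
        rw [Finset.mem_filter] at hi
        rw [Finset.mem_union]
        by_cases h6 : zf Z hZ i ∈ X
        · right; rw [Finset.mem_filter]; exact ⟨hi.1, h6⟩
        · left; rw [hPdef, Finset.mem_filter]; exact ⟨hi.1, hi.2, h6⟩
      have h6 : ((range N).filter (fun i => zf Z hZ i ∈ X)).card ≤ X.card := by
        apply Finset.card_le_card_of_injOn (fun i => zf Z hZ i)
        · intro i hi
          exact (Finset.mem_filter.mp (Finset.mem_coe.mp hi)).2
        · intro i hi j hj h
          have hi' := Finset.mem_range.mp (Finset.mem_filter.mp (Finset.mem_coe.mp hi)).1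
          have hj' := Finset.mem_range.mp (Finset.mem_filter.mp (Finset.mem_coe.mp hj)).1
          have := zf_inj Z hZ hndZ h
          rwa [Nat.mod_eq_of_lt hi', Nat.mod_eq_of_lt hj'] at this
      have h7 := Finset.card_le_card h5
      have h8 := Finset.card_union_le P ((range N).filter (fun i => zf Z hZ i ∈ X))
      omega
    have h9 : ((range N).filter (fun i => E a (zf Z hZ (i + 1)))).card
        = ((range Z.length).filter (fun i => E a (zf Z hZ (i + 1)))).card := rfl
    omega
  have hPne : P.Nonempty := by
    have h3 : E a (Z.head hZne) := by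
      have := List.isChain_append.mp hHP.chain
      exact this.2.2 a (by rw [hAl]; rfl) _ (by rw [List.head?_eq_some_head hZne]; rfl)
    refine ⟨N - 1, ?_⟩
    have hz0 : zf Z hZ (N - 1 + 1) = Z.head hZne := by
      have e1 : N - 1 + 1 = 0 + Z.length := by omega
      rw [e1, zf_add]
      unfold zf
      simp only [Nat.zero_mod]
      exact (List.head_eq_getElem hZne).symm
    have hz1 : zf Z hZ (N - 1) ∉ X := by
      apply hlastX
      rw [List.getLast?_eq_getElem?, List.getElem?_eq_getElem (by omega)]
      unfold zf
      simp only [Option.mem_def, Option.some.injEq]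
      congr 1
      rw [Nat.mod_eq_of_lt (by omega)]
    rw [hPdef, Finset.mem_filter, Finset.mem_range]
    exact ⟨by omega, by rw [hz0]; exact h3, hz1⟩
  obtain ⟨i0, hi0⟩ := hPne
  have hNk : Fintype.card V + 1 ≤ N + k := by
    have := hMcard i0 hi0
    omega
  have hmain : Y.card ≤ N + k - Fintype.card V - 1 := by
    apply abs_lemma (N + k - Fintype.card V - 1) P Y M hPY
    · intro e he
      have := hMcard e he
      omega
    · omega
    · intro e he x hx hxe hxM y hy hb
      have heN : e < N := by
        have := (Finset.mem_filter.mp he).1; exact Finset.mem_range.mp this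
      have hxN : x < N := by
        have := (Finset.mem_filter.mp hx).1; exact Finset.mem_range.mp this
      have hyN : y < N := by
        have := (Finset.mem_filter.mp hy).1; exact Finset.mem_range.mp this
      have hns := btw_no_succ hxN hyN heN hb
      by_contra hyM
      have hxy : E (zf Z hZ x) (zf Z hZ (y + 1)) := by
        by_contra hcon
        exact hyM (Finset.mem_filter.mpr ⟨Finset.mem_range.mpr hyN, hcon, hns.1⟩)
      have hex' : E (zf Z hZ e) (zf Z hZ (x + 1)) := by
        by_contra hcon
        exact hxM (Finset.mem_filter.mpr ⟨Finset.mem_range.mpr hxN, hcon, hns.2⟩)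
      have hae : E a (zf Z hZ (e + 1)) := (Finset.mem_filter.mp he).2.1
      have hynot : ¬ Endp E A Z (zf Z hZ y) := (Finset.mem_filter.mp hy).2
      apply hynot
      unfold btw at hb
      have hx2 : ∀ t, zf Z hZ (t + N + 1) = zf Z hZ (t + 1) := by
        intro t
        rw [show t + N + 1 = (t + 1) + Z.length by omega, zf_add]
      have hx3 : ∀ t, zf Z hZ (t + N) = zf Z hZ t := by
        intro t
        exact zf_add Z hZ t
      rcases hb with ⟨hb1, hb2⟩ | ⟨hb1, hb2 | hb2⟩
      · -- x < y < e
        have := endp_rot hZ hndZ hchA hAl hEz (i := e) (j := x + N) (k := y + N) hae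
          (by omega) (by omega) (by omega) (by rw [hx2]; exact hex') (by rw [hx2, hx3]; exact hxy)
        rwa [hx3] at this
      · -- e < x < y
        exact endp_rot hZ hndZ hchA hAl hEz (i := e) (j := x) (k := y) hae
          (by omega) (by omega) (by omega) hex' hxy
      · -- e < x, y < e
        have := endp_rot hZ hndZ hchA hAl hEz (i := e) (j := x) (k := y + N) hae
          (by omega) (by omega) (by omega) hex' (by rw [hx2]; exact hxy)
        rwa [hx3] at this
  -- number of ends
  have hends : N ≤ Y.card + (univ.filter (fun w => Endp E A Z w ∧ w ∈ Z)).card := by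
    have h0 : ((range N).filter (fun k => Endp E A Z (zf Z hZ k))).card
        = (univ.filter (fun w => Endp E A Z w ∧ w ∈ Z)).card := cntZ0 hZ hndZ _
    have := Finset.card_filter_add_card_filter_not (s := range N)
      (fun k => Endp E A Z (zf Z hZ k))
    rw [Finset.card_range] at this
    have e1 : Y.card = ((range N).filter (fun k => ¬ Endp E A Z (zf Z hZ k))).card := rfl
    omega
  have hsum : ideg E s + (univ.filter (fun w => Endp E A Z w ∧ w ∈ Z)).card + 1
      ≤ Fintype.card V := by
    unfold ideg
    have hsA : s ∈ A := by
      cases A with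
      | nil => simp at hAs
      | cons x xs => simp at hAs; simp [hAs]
    rw [← Finset.card_union_of_disjoint]
    · rw [← Finset.card_insert_of_notMem (a := s)]
      · exact Finset.card_le_univ _
      · rw [Finset.mem_union]
        rintro (h | h)
        · exact hloop s (Finset.mem_filter.mp h).2
        · exact hdis hsA (Finset.mem_filter.mp h).2.2
    · rw [Finset.disjoint_left]
      intro w h1 h2
      exact endp_startX hno hAs hHP (Finset.mem_filter.mp h2).2.1 (Finset.mem_filter.mp h1).2
  omega

end Pool.Agent.NashW
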