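import Mathlib
import Pool.Agent.NashW.Gen2

set_option autoImplicit false

namespace Pool.Agent.NashW

open Finset

universe w

/-- adding one edge to a digraph: either the Hamilton cycle avoids it or there is a Hamilton path
from the head of the new edge -/
theorem path_of_added {V : Type w} {E E' : V → V → Prop} {e s : V}
    (hE' : ∀ a b, E' a b ↔ (E a b ∨ (a = e ∧ b = s))) (hHC' : HC E') :
    HC E ∨ ∃ L, IsHP E L ∧ L.head? = some s := by
  obtain ⟨l, hl, hcl⟩ := hc_last hHC' e
  have hnote : ∀ a ∈ l, a ≠ e := by
    rintro a ha rfl
    exact (List.disjoint_of_nodup_append hl.nodup) ha (by simp)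
  have hHP : IsHP E (l ++ [e]) := by
    refine ⟨hl.nodup, hl.cover, ?_⟩
    have hch := hl.chain
    rw [List.isChain_append] at hch ⊢
    obtain ⟨c1, _, c3⟩ := hch
    refine ⟨?_, by simp, ?_⟩
    · apply List.IsChain.imp_of_mem_imp _ c1
      intro a b ha _ hab
      rcases (hE' a b).mp hab with h | h
      · exact h
      · exact absurd h.1 (hnote a ha)
    · intro x hx y hy
      rcases (hE' x y).mp (c3 x hx y hy) with h | h
      · exact h
      · exact absurd h.1 (hnote x (List.mem_of_getLast? hx))
  obtain ⟨b, hb⟩ : ∃ b, (l ++ [e]).head? = some b := by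
    cases l with
    | nil => exact ⟨e, by simp⟩
    | cons c cs => exact ⟨c, by simp⟩
  rcases (hE' e b).mp (hcl b hb) with h | h
  · left
    refine ⟨l ++ [e], hHP, ?_⟩
    intro a ha c hc
    rw [List.getLast?_append] at ha
    simp at ha
    rw [hb] at hc
    simp only [Option.mem_def, Option.some.injEq] at hc
    rw [← ha, ← hc]
    exact h
  · right
    rw [h.2] at hb
    exact ⟨_, hHP, hb⟩

open Classical in
/-- The theorem without exceptional vertices of small outdegree. -/
theorem base_thm {V : Type w} [Fintype V] (X : Finset V) (k : ℕ) (hk : 1 ≤ k) :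
    ∀ (E : V → V → Prop), (∀ v, ¬ E v v) →
    (∀ v, v ∉ X → Fintype.card V ≤ od E v + k) → (∀ v, k + X.card ≤ od E v) →
    2 ≤ Fintype.card V →
    (∀ i, 1 ≤ i → i < k → (univ.filter (fun v => ideg E v < i)).card < i) →
    HC E := by
  intro E
  induction hm : (univ.filter (fun p : V × V => ¬ E p.1 p.2)).card using Nat.strong_induction_on
    generalizing E with
  | _ m ih =>
  intro hloop hbig hall hn hin
  by_cases hex : ∃ e s, e ≠ s ∧ ¬ E e s ∧ k ≤ ideg E s + 1
  · obtain ⟨e, s, hes, hnE, hsdeg⟩ := hex
    obtain ⟨E', hE'⟩ : ∃ E' : V → V → Prop, ∀ a b, E' a b ↔ (E a b ∨ (a = e ∧ b = s)) :=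
      ⟨_, fun _ _ => Iff.rfl⟩
    have hle : ∀ a b, E a b → E' a b := fun a b h => (hE' a b).mpr (Or.inl h)
    have hod : ∀ v, od E v ≤ od E' v := by
      intro v
      unfold od
      apply Finset.card_le_card
      intro w hw
      rw [Finset.mem_filter] at hw ⊢
      exact ⟨hw.1, hle _ _ hw.2⟩
    have hid : ∀ v, ideg E v ≤ ideg E' v := by
      intro v
      unfold ideg
      apply Finset.card_le_card
      intro w hw
      rw [Finset.mem_filter] at hw ⊢
      exact ⟨hw.1, hle _ _ hw.2⟩
    have hHC' : HC E' := by
      refine ih _ ?_ E' rfl ?_ ?_ ?_ ?_ ?_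
      rotate_left
      · intro v hv
        rcases (hE' v v).mp hv with h | ⟨h1, h3⟩
        · exact hloop v h
        · exact hes (h1.symm.trans h3)
      · intro v hv
        have := hbig v hv
        have := hod v
        omega
      · intro v
        exact le_trans (hall v) (hod v)
      · exact hn
      · intro i hi hi'
        refine lt_of_le_of_lt (Finset.card_le_card ?_) (hin i hi hi')
        intro v hv
        rw [Finset.mem_filter] at hv ⊢
        exact ⟨hv.1, lt_of_le_of_lt (hid v) hv.2⟩
      · rw [← hm]
        apply Finset.card_lt_card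
        rw [Finset.ssubset_iff_of_subset]
        · refine ⟨(e, s), ?_, ?_⟩
          · rw [Finset.mem_filter]; exact ⟨Finset.mem_univ _, hnE⟩
          · rw [Finset.mem_filter]; rintro ⟨_, h⟩; exact h ((hE' _ _).mpr (Or.inr ⟨rfl, rfl⟩))
        · intro p hp
          rw [Finset.mem_filter] at hp ⊢
          exact ⟨hp.1, fun h => hp.2 (hle _ _ h)⟩
    rcases path_of_added hE' hHC' with h | ⟨L, hL, hs⟩
    · exact h
    · exact closure_gen hloop X k hk hbig hall hL hs hsdeg
  · push Not at hex
    apply closed_ham (Fintype.card V) V E
      (univ.filter (fun s => ideg E s + 1 < k)) rfl hn hloop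
    · intro v hv u huv
      by_contra hcon
      apply hv
      rw [Finset.mem_filter]
      exact ⟨Finset.mem_univ _, hex u v huv hcon⟩
    · intro i
      rw [Finset.filter_filter]
      by_cases h1 : i + 1 < k
      · have h3 := hin (i + 1) (by omega) h1
        have h4 : (univ.filter (fun v => ideg E v + 1 < k ∧ ideg E v ≤ i)).card
            ≤ (univ.filter (fun v => ideg E v < i + 1)).card := by
          apply Finset.card_le_card
          intro v hv
          rw [Finset.mem_filter] at hv ⊢
          exact ⟨hv.1, by omega⟩
        omega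
      · by_cases h5 : k ≤ 1
        · have h4 : (univ.filter (fun v => ideg E v + 1 < k ∧ ideg E v ≤ i))
              = ∅ := by
            rw [Finset.eq_empty_iff_forall_notMem]
            intro v hv
            rw [Finset.mem_filter] at hv
            omega
          rw [h4]; simp
        · have h3 := hin (k - 1) (by omega) (by omega)
          have h4 : (univ.filter (fun v => ideg E v + 1 < k ∧ ideg E v ≤ i)).card
              ≤ (univ.filter (fun v => ideg E v < k - 1)).card := by
            apply Finset.card_le_card
            intro v hv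
            rw [Finset.mem_filter] at hv ⊢
            exact ⟨hv.1, by omega⟩
          omega

section contraction
variable {V : Type w} {E : V → V → Prop}

/-- which out-neighbourhood a vertex of the contracted digraph carries -/
noncomputable def role (x y : V) (a : {v : V // v ≠ y}) : V := by
  classical exact if a.1 = x then y else a.1

theorem role_inj (x y : V) : Function.Injective (role x y) := by
  classical
  intro a b h
  unfold role at h
  apply Subtype.ext
  split_ifs at h with h1 h2 h2
  · rw [h1, h2]
  · exact absurd h.symm b.2
  · exact absurd h a.2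
  · exact h

theorem role_ne (x y : V) (hxy : x ≠ y) (a : {v : V // v ≠ y}) : role x y a ≠ x := by
  classical
  unfold role
  split_ifs with h
  · exact hxy.symm
  · exact h

theorem role_surj (x y : V) (hxy : x ≠ y) (v : V) (hv : v ≠ x) :
    ∃ a : {v : V // v ≠ y}, role x y a = v := by
  classical
  by_cases hvy : v = y
  · refine ⟨⟨x, hxy⟩, ?_⟩
    unfold role
    rw [if_pos rfl, hvy]
  · refine ⟨⟨v, hvy⟩, ?_⟩
    unfold role
    rw [if_neg hv]

theorem role_od [Fintype V] (hloop : ∀ v, ¬ E v v) (x y : V) (hxy : x ≠ y)
    [Fintype {v : V // v ≠ y}] (a : {v : V // v ≠ y}) :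
    od E (role x y a) ≤ od (Ctr E x y) a + 1 := by
  classical
  by_cases h : a.1 = x
  · have h1 : role x y a = y := by unfold role; rw [if_pos h]
    have h2 : a = ⟨x, hxy⟩ := Subtype.ext h
    rw [h1, h2]
    exact ctr_od_self hloop x y hxy
  · have h1 : role x y a = a.1 := by unfold role; rw [if_neg h]
    rw [h1]
    refine le_trans (ctr_od_other hloop x y a h) ?_
    split_ifs <;> omega

open Classical in
/-- the preimage of a set under `role` -/
noncomputable def pre (x y : V) [Fintype {v : V // v ≠ y}] (X : Finset V) :
    Finset {v : V // v ≠ y} := univ.filter (fun a => role x y a ∈ X)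

theorem mem_pre (x y : V) [Fintype {v : V // v ≠ y}] (X : Finset V) (a : {v : V // v ≠ y}) :
    a ∈ pre x y X ↔ role x y a ∈ X := by
  unfold pre
  simp

theorem card_pre (x y : V) (hxy : x ≠ y) [Fintype {v : V // v ≠ y}] (X : Finset V) [DecidableEq V] :
    (pre x y X).card = (X.erase x).card := by
  apply Finset.card_bij (fun a _ => role x y a)
  · intro a ha
    rw [mem_pre] at ha
    rw [Finset.mem_erase]
    exact ⟨role_ne x y hxy a, ha⟩
  · intro a _ b _ h
    exact role_inj x y h
  · intro v hv
    rw [Finset.mem_erase] at hv
    obtain ⟨a, ha⟩ := role_surj x y hxy v hv.1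
    exact ⟨a, by rw [mem_pre, ha]; exact hv.2, ha⟩

open Classical in
theorem pre_posa [Fintype V] (hloop : ∀ v, ¬ E v v) (x y : V) (hxy : x ≠ y)
    [Fintype {v : V // v ≠ y}] (X : Finset V) (hxX : x ∈ X) (hmin : ∀ z ∈ X, od E x ≤ od E z)
    (hX : ∀ i, (X.filter (fun v => od E v ≤ i)).card ≤ i) (i : ℕ) :
    ((pre x y X).filter (fun v => od (Ctr E x y) v ≤ i)).card ≤ i := by
  have h1 : (((pre x y X).filter (fun v => od (Ctr E x y) v ≤ i)).image (role x y)) ⊆
      (X.filter (fun v => od E v ≤ i + 1)).erase x := by
    intro v hv
    rw [Finset.mem_image] at hv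
    obtain ⟨a, ha, rfl⟩ := hv
    rw [Finset.mem_filter, mem_pre] at ha
    rw [Finset.mem_erase, Finset.mem_filter]
    refine ⟨role_ne x y hxy a, ha.1, ?_⟩
    have := role_od hloop x y hxy a
    omega
  have h2 := Finset.card_le_card h1
  rw [Finset.card_image_of_injective _ (role_inj x y)] at h2
  by_cases h3 : x ∈ X.filter (fun v => od E v ≤ i + 1)
  · rw [Finset.card_erase_of_mem h3] at h2
    have := hX (i + 1)
    omega
  · have h4 : X.filter (fun v => od E v ≤ i + 1) = ∅ := by
      rw [Finset.eq_empty_iff_forall_notMem]
      intro v hv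
      rw [Finset.mem_filter] at hv
      apply h3
      rw [Finset.mem_filter]
      exact ⟨hxX, le_trans (hmin v hv.1) hv.2⟩
    rw [h4, Finset.erase_empty, Finset.card_empty] at h2
    omega

end contraction

open Classical in
/-- Version (a): indegree condition shifted by the number of exceptional vertices. -/
theorem thm_a : ∀ (lam : ℕ) (V : Type w) [Fintype V] (E : V → V → Prop) (X R : Finset V)
    (k : ℕ), X.card = lam → Disjoint X R → 1 ≤ k → (∀ v, ¬ E v v) → 2 ≤ Fintype.card V →
    (∀ i, (X.filter (fun v => od E v ≤ i)).card ≤ i) →
    (∀ v, v ∉ X → v ∉ R → Fintype.card V ≤ od E v + k) →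
    (∀ v, v ∉ X → k + lam + R.card ≤ od E v) →
    (∀ i, 1 ≤ i → i < k → (univ.filter (fun v => ideg E v < i + lam)).card < i) →
    HC E := by
  intro lam
  induction lam with
  | zero =>
    intro V _ E X R k hX _ hk hloop hn _ hbig hall hin
    have hXe : X = ∅ := Finset.card_eq_zero.mp hX
    subst hXe
    apply base_thm R k hk E hloop (fun v hv => hbig v (by simp) hv)
      (fun v => by have := hall v (by simp); omega) hn
    intro i hi hi'
    have := hin i hi hi'
    simpa using this
  | succ lam ih =>
    intro V _ E X R k hX hXR hk hloop hn hP hbig hall hin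
    have hXne : X.Nonempty := by rw [← Finset.card_pos]; omega
    obtain ⟨x, hxX, hmin⟩ := Finset.exists_min_image X (od E) hXne
    have hxR : x ∉ R := Finset.disjoint_left.mp hXR hxX
    have hpos : 1 ≤ od E x := by
      have h0 := hP 0
      by_contra hcon
      have : x ∈ X.filter (fun v => od E v ≤ 0) := by
        rw [Finset.mem_filter]; exact ⟨hxX, by omega⟩
      have := Finset.card_pos.mpr ⟨x, this⟩
      omega
    obtain ⟨y, hy⟩ : ∃ y, E x y := by
      unfold od at hpos
      obtain ⟨u, hu⟩ := Finset.card_pos.mp (lt_of_lt_of_le Nat.zero_lt_one hpos)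
      exact ⟨u, (Finset.mem_filter.mp hu).2⟩
    have hxy : x ≠ y := by rintro rfl; exact hloop _ hy
    have hc' := card_ctr (V := V) y
    -- there are at least three vertices
    have hn3 : 3 ≤ Fintype.card V := by
      by_contra hcon
      have hn2 : Fintype.card V = 2 := by omega
      -- `y` has outdegree at most one
      have hody : od E y ≤ 1 := by
        unfold od
        have : (univ.filter (fun b => E y b)) ⊆ (univ.erase y : Finset V) := by
          intro b hb
          rw [Finset.mem_erase]
          refine ⟨?_, Finset.mem_univ _⟩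
          rintro rfl
          exact hloop _ (Finset.mem_filter.mp hb).2
        have h2 := Finset.card_le_card this
        rw [Finset.card_erase_of_mem (Finset.mem_univ _), Finset.card_univ] at h2
        omega
      have hodx : od E x ≤ 1 := by
        unfold od
        have : (univ.filter (fun b => E x b)) ⊆ (univ.erase x : Finset V) := by
          intro b hb
          rw [Finset.mem_erase]
          refine ⟨?_, Finset.mem_univ _⟩
          rintro rfl
          exact hloop _ (Finset.mem_filter.mp hb).2
        have h2 := Finset.card_le_card this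
        rw [Finset.card_erase_of_mem (Finset.mem_univ _), Finset.card_univ] at h2
        omega
      by_cases hyX : y ∈ X
      · have h1 := hP 1
        have h2 : ({x, y} : Finset V) ⊆ X.filter (fun v => od E v ≤ 1) := by
          intro v hv
          rw [Finset.mem_insert, Finset.mem_singleton] at hv
          rw [Finset.mem_filter]
          rcases hv with rfl | rfl
          · exact ⟨hxX, hodx⟩
          · exact ⟨hyX, hody⟩
        have h3 := Finset.card_le_card h2
        rw [Finset.card_pair hxy] at h3
        omega
      · have := hall y hyX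
        omega
    apply hc_of_ctr hxy hy
    apply ih {v : V // v ≠ y} (Ctr E x y) (pre x y X) (pre x y R) k
    · rw [card_pre x y hxy, Finset.card_erase_of_mem hxX]; omega
    · rw [Finset.disjoint_left]
      intro a ha hb
      rw [mem_pre] at ha hb
      exact Finset.disjoint_left.mp hXR ha hb
    · exact hk
    · exact ctr_loop x y
    · omega
    · intro i
      have := pre_posa hloop x y hxy X hxX hmin hP i
      convert this using 2
    · intro a ha hb
      rw [mem_pre] at ha hb
      have h1 := hbig _ ha hb
      have h2 := role_od hloop x y hxy a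
      omega
    · intro a ha
      rw [mem_pre] at ha
      have h1 := hall _ ha
      have h2 := role_od hloop x y hxy a
      rw [card_pre x y hxy, Finset.erase_eq_of_notMem hxR]
      omega
    · intro i hi hi'
      have h1 := hin i hi hi'
      refine lt_of_le_of_lt ?_ h1
      apply Finset.card_le_card_of_injOn Subtype.val
      · intro a ha
        rw [Finset.mem_coe, Finset.mem_filter] at ha ⊢
        refine ⟨Finset.mem_univ _, ?_⟩
        have := ctr_ideg_le hloop x y a
        omega
      · intro a _ b _ h
        exact Subtype.ext h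

end Pool.Agent.NashW
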