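import Mathlib
import Pool.Agent.NashW.Gen3

set_option autoImplicit false

namespace Pool.Agent.NashW

open Finset

universe w

open Classical in
/-- Version (b): the indegree condition is the unshifted one up to `k + lam`, and the exceptional
vertices of small outdegree have indegree at least `k + lam - 1`. -/
theorem thm_b : ∀ (lam : ℕ) (V : Type w) [Fintype V] (E : V → V → Prop) (X R : Finset V)
    (k : ℕ), X.card = lam → Disjoint X R → 1 ≤ k → (∀ v, ¬ E v v) → 2 ≤ Fintype.card V →
    (∀ i, (X.filter (fun v => od E v ≤ i)).card ≤ i) →
    (∀ v, v ∉ X → v ∉ R → Fintype.card V ≤ od E v + k) →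
    (∀ v, v ∉ X → k + lam + R.card ≤ od E v) →
    (∀ v, v ∈ X → k + lam ≤ ideg E v + 1) →
    (∀ i, 1 ≤ i → i < k + lam → (univ.filter (fun v => ideg E v < i)).card < i) →
    HC E := by
  intro lam
  induction lam with
  | zero =>
    intro V _ E X R k hX _ hk hloop hn _ hbig hall _ hin
    have hXe : X = ∅ := Finset.card_eq_zero.mp hX
    subst hXe
    apply base_thm R k hk E hloop (fun v hv => hbig v (by simp) hv)
      (fun v => by have := hall v (by simp); omega) hn
    intro i hi hi'
    exact hin i hi (by omega)
  | succ lam ih =>
    intro V _ E X R k hX hXR hk hloop hn hP hbig hall hXin hin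
    have hXne : X.Nonempty := by rw [← Finset.card_pos]; omega
    obtain ⟨x, hxX, hmin⟩ := Finset.exists_min_image X (od E) hXne
    have hxR : x ∉ R := Finset.disjoint_left.mp hXR hxX
    have hpos : 1 ≤ od E x := by
      have h0 := hP 0
      by_contra hcon
      have : x ∈ X.filter (fun v => od E v ≤ 0) := by
        rw [Finset.mem_filter]; exact ⟨hxX, by omega⟩
      have := Finset.card_pos.mpr ⟨x, this⟩
      omega
    -- the outneighbour of least indegree
    obtain ⟨y, hy, hymin⟩ : ∃ y, E x y ∧ ∀ z, E x z → ideg E y ≤ ideg E z := by
      unfold od at hpos
      have hne : (univ.filter (fun w => E x w)).Nonempty :=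
        Finset.card_pos.mp (lt_of_lt_of_le Nat.zero_lt_one hpos)
      obtain ⟨y, hy, hymin⟩ := Finset.exists_min_image _ (ideg E) hne
      refine ⟨y, (Finset.mem_filter.mp hy).2, ?_⟩
      intro z hz
      exact hymin z (Finset.mem_filter.mpr ⟨Finset.mem_univ _, hz⟩)
    have hxy : x ≠ y := by rintro rfl; exact hloop _ hy
    have hc' := card_ctr (V := V) y
    -- there are at least three vertices
    have hn3 : 3 ≤ Fintype.card V := by
      by_contra hcon
      have hn2 : Fintype.card V = 2 := by omega
      have hod1 : ∀ z, od E z ≤ 1 := by
        intro z
        unfold od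
        have : (univ.filter (fun b => E z b)) ⊆ (univ.erase z : Finset V) := by
          intro b hb
          rw [Finset.mem_erase]
          refine ⟨?_, Finset.mem_univ _⟩
          rintro rfl
          exact hloop _ (Finset.mem_filter.mp hb).2
        have h2 := Finset.card_le_card this
        rw [Finset.card_erase_of_mem (Finset.mem_univ _), Finset.card_univ] at h2
        omega
      have hody := hod1 y
      have hodx := hod1 x
      by_cases hyX : y ∈ X
      · have h1 := hP 1
        have h2 : ({x, y} : Finset V) ⊆ X.filter (fun v => od E v ≤ 1) := by
          intro v hv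
          rw [Finset.mem_insert, Finset.mem_singleton] at hv
          rw [Finset.mem_filter]
          rcases hv with rfl | rfl
          · exact ⟨hxX, hodx⟩
          · exact ⟨hyX, hody⟩
        have h3 := Finset.card_le_card h2
        rw [Finset.card_pair hxy] at h3
        omega
      · have := hall y hyX
        omega
    apply hc_of_ctr hxy hy
    apply ih {v : V // v ≠ y} (Ctr E x y) (pre x y X) (pre x y R) k
    · rw [card_pre x y hxy, Finset.card_erase_of_mem hxX]; omega
    · rw [Finset.disjoint_left]
      intro a ha hb
      rw [mem_pre] at ha hb
      exact Finset.disjoint_left.mp hXR ha hb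
    · exact hk
    · exact ctr_loop x y
    · omega
    · intro i
      have := pre_posa hloop x y hxy X hxX hmin hP i
      convert this using 2
    · intro a ha hb
      rw [mem_pre] at ha hb
      have h1 := hbig _ ha hb
      have h2 := role_od hloop x y hxy a
      omega
    · intro a ha
      rw [mem_pre] at ha
      have h1 := hall _ ha
      have h2 := role_od hloop x y hxy a
      rw [card_pre x y hxy, Finset.erase_eq_of_notMem hxR]
      omega
    · intro a ha
      rw [mem_pre] at ha
      have h2 := ctr_ideg_le hloop x y a
      by_cases hax : a.1 = x
      · have h3 := hXin x hxX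
        rw [hax] at h2
        omega
      · have h4 : role x y a = a.1 := by unfold role; rw [if_neg hax]
        rw [h4] at ha
        have h3 := hXin _ ha
        omega
    · intro i hi hi'
      have hXx := hXin x hxX
      -- the merged vertex is never counted
      have hself : ∀ a : {v : V // v ≠ y}, ideg (Ctr E x y) a < i → a.1 ≠ x := by
        intro a ha hax
        have h2 := ctr_ideg_le hloop x y a
        rw [hax] at h2
        omega
      by_cases hex : ideg E y ≤ i
      · have h1 := hin (i + 1) (by omega) (by omega)
        have h2 : ((univ.filter (fun a => ideg (Ctr E x y) a < i)).image Subtype.val) ⊆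
            (univ.filter (fun v => ideg E v < i + 1)).erase y := by
          intro v hv
          rw [Finset.mem_image] at hv
          obtain ⟨a, ha, rfl⟩ := hv
          rw [Finset.mem_filter] at ha
          rw [Finset.mem_erase, Finset.mem_filter]
          refine ⟨a.2, Finset.mem_univ _, ?_⟩
          have := ctr_ideg_le hloop x y a
          omega
        have h3 := Finset.card_le_card h2
        rw [Finset.card_image_of_injective _ Subtype.val_injective,
          Finset.card_erase_of_mem (Finset.mem_filter.mpr ⟨Finset.mem_univ _, by omega⟩)] at h3
        have h4 : 0 < (univ.filter (fun v => ideg E v < i + 1)).card :=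
          Finset.card_pos.mpr ⟨y, Finset.mem_filter.mpr ⟨Finset.mem_univ _, by omega⟩⟩
        have h5 : (univ.filter (fun a => ideg (Ctr E x y) a < i)).card < i := by omega
        convert h5 using 2
      · have h1 := hin i hi (by omega)
        have h2 : ((univ.filter (fun a => ideg (Ctr E x y) a < i)).image Subtype.val) ⊆
            (univ.filter (fun v => ideg E v < i)) := by
          intro v hv
          rw [Finset.mem_image] at hv
          obtain ⟨a, ha, rfl⟩ := hv
          rw [Finset.mem_filter] at ha
          rw [Finset.mem_filter]
          refine ⟨Finset.mem_univ _, ?_⟩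
          have hne := hself a ha.2
          have h3 := ctr_ideg hloop x y a hne
          have h3' : ideg E a.1 ≤ ideg (Ctr E x y) a + (if E x a.1 then 1 else 0) := by
            convert h3 using 2
          by_cases hE : E x a.1
          · rw [if_pos hE] at h3'
            have := hymin _ hE
            omega
          · rw [if_neg hE] at h3'
            omega
        have h3 := Finset.card_le_card h2
        rw [Finset.card_image_of_injective _ Subtype.val_injective] at h3
        have h5 : (univ.filter (fun a => ideg (Ctr E x y) a < i)).card < i := by omega
        convert h5 using 2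

end Pool.Agent.NashW
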