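import Mathlib
import Pool.Agent.NashW.Gen4

set_option autoImplicit false

namespace Pool.Agent.NashW

open Finset

variable {n : ℕ} (E : Finset (Fin n × Fin n))

theorem od_eq (v : Fin n) :
    od (fun a b => (a, b) ∈ E) v = (E.filter (fun e => e.1 = v)).card := by
  classical
  unfold od
  apply Finset.card_bij (fun w _ => (v, w))
  · intro w hw
    simp only [mem_filter, mem_univ, true_and] at hw ⊢
    exact ⟨hw, trivial⟩
  · intro a _ b _ h
    exact (Prod.mk.inj h).2
  · intro e he
    rw [mem_filter] at he
    refine ⟨e.2, ?_, ?_⟩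
    · simp only [mem_filter, mem_univ, true_and]
      rw [← he.2]
      exact he.1
    · rw [← he.2]

theorem ideg_eq (v : Fin n) :
    ideg (fun a b => (a, b) ∈ E) v = (E.filter (fun e => e.2 = v)).card := by
  classical
  unfold ideg
  apply Finset.card_bij (fun w _ => (w, v))
  · intro w hw
    simp only [mem_filter, mem_univ, true_and] at hw ⊢
    exact ⟨hw, trivial⟩
  · intro a _ b _ h
    exact (Prod.mk.inj h).1
  · intro e he
    rw [mem_filter] at he
    refine ⟨e.1, ?_, ?_⟩
    · simp only [mem_filter, mem_univ, true_and]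
      rw [← he.2]
      exact he.1
    · rw [← he.2]

theorem hc_perm (h : HC (fun a b : Fin n => (a, b) ∈ E)) :
    ∃ σ : Equiv.Perm (Fin n), ∀ i : Fin n, (σ i, σ (finRotate n i)) ∈ E := by
  classical
  obtain ⟨l, hl, hcl⟩ := h
  have hlen := isHP_length hl
  rw [Fintype.card_fin] at hlen
  have hinj : Function.Injective (fun i : Fin n => l[i.1]'(by omega)) := by
    intro i j hij
    exact Fin.ext ((List.Nodup.getElem_inj_iff hl.nodup).mp hij)
  refine ⟨Equiv.ofBijective _ (Finite.injective_iff_bijective.mp hinj), ?_⟩
  intro i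
  rw [Equiv.ofBijective_apply, Equiv.ofBijective_apply]
  obtain ⟨m, rfl⟩ : ∃ m, n = m + 1 := ⟨n - 1, by have := i.2; omega⟩
  by_cases hi : i.1 + 1 < m + 1
  · have h1 : (finRotate (m + 1) i).1 = i.1 + 1 := by
      have := finRotate_of_lt (n := m) (k := i.1) (by omega)
      exact congrArg Fin.val this
    have h2 := List.isChain_iff_getElem.mp hl.chain i.1 (by omega)
    simp only [h1]
    exact h2
  · have h0 : i.1 = m := by have := i.2; omega
    have h1 : (finRotate (m + 1) i).1 = 0 := by
      have : i = Fin.last m := Fin.ext (by rw [h0, Fin.val_last])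
      rw [this, finRotate_last]
      rfl
    have h2 : l.getLast? = some (l[i.1]'(by omega)) := by
      rw [List.getLast?_eq_getElem?, ← List.getElem?_eq_getElem]
      congr 1
      omega
    have h3 : l.head? = some (l[0]'(by omega)) := by
      rw [List.head?_eq_getElem?, List.getElem?_eq_getElem (by omega)]
    simp only [h1]
    exact hcl _ h2 _ h3

end Pool.Agent.NashW
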