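import Mathlib
import Pool.Agent.NashW.Fin

/-!
# Exceptional vertices of small outdegree, shifted indegree condition

A companion of `OneSided`: no indegree condition is imposed on the exceptional vertices of small
outdegree; instead the indegree condition is shifted by their number. For one exceptional vertex
the shifted condition is the indegree part of the Nash-Williams condition.
-/

set_option autoImplicit false

namespace Pool.Agent.Results.MP_a27047_co.ShiftedIndegree

open Pool.Agent.NashW

theorem result (n : ℕ) (hn : 2 ≤ n) (E : Finset (Fin n × Fin n))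
    (hloop : ∀ v : Fin n, (v, v) ∉ E)
    (X R : Finset (Fin n)) (hXR : Disjoint X R) (k : ℕ) (hk : 1 ≤ k)
    (hX : ∀ i : ℕ, (X.filter (fun v => (E.filter (fun e => e.1 = v)).card ≤ i)).card ≤ i)
    (hR : ∀ v, v ∉ X → k + X.card + R.card ≤ (E.filter (fun e => e.1 = v)).card)
    (hbig : ∀ v, v ∉ X → v ∉ R → n ≤ (E.filter (fun e => e.1 = v)).card + k)
    (hin : ∀ i : ℕ, 1 ≤ i → i < k →
      (Finset.univ.filter
        (fun v : Fin n => (E.filter (fun e => e.2 = v)).card < i + X.card)).card < i) :
    ∃ σ : Equiv.Perm (Fin n), ∀ i : Fin n, (σ i, σ (finRotate n i)) ∈ E := by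
  classical
  apply hc_perm
  apply thm_a X.card (Fin n) (fun a b => (a, b) ∈ E) X R k rfl hXR hk hloop
  · rw [Fintype.card_fin]; exact hn
  · intro i
    have := hX i
    simp only [od_eq]
    convert this using 2
  · intro v h1 h2
    rw [Fintype.card_fin, od_eq]
    exact hbig v h1 h2
  · intro v h1
    rw [od_eq]
    exact hR v h1
  · intro i h1 h2
    have := hin i h1 h2
    simp only [ideg_eq]
    convert this using 2

end Pool.Agent.Results.MP_a27047_co.ShiftedIndegree
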